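import Pool.Agent.Y481.Chain
import Pool.Agent.Y472.G.Defs

/-!
# Rings with a general kernel, absolute lower bound of the exponents: statements

The constants depend only on bounds of the potential, not on the potential, the kernel or the number
of vertices.  This is applied to the kernel `kF N · · χ` and the potential `s · · χ`, for `χ` in the
upper half plane near `0`.
-/

set_option autoImplicit false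

namespace Pool.Agent.Y481.X

open Finset Filter Topology Metric
open Pool.Agent.W711.HT
open Pool.Agent.Y481
open Pool.Agent.TH563.UV (CPu)
open scoped Real

/-! ### Potentials and kernels -/

/-- a class of potentials of two variables -/
structure PP (ρ τ c C₀ : ℝ) (s : ℂ → ℂ → ℂ) : Prop where
  hρ : 0 < ρ ∧ ρ ≤ 1 / 4
  hτ : 0 < τ ∧ τ ≤ ρ
  hc : 0 < c
  hC : 0 < C₀
  san : DifferentiableOn ℂ (fun p : ℂ × ℂ => s p.1 p.2)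
    (Rc (3 * ρ) (3 * τ) ×ˢ Rc (3 * ρ) (3 * τ))
  sbd : ∀ ψ ∈ Rc (3 * ρ) (3 * τ), ∀ ψ' ∈ Rc (3 * ρ) (3 * τ), ‖s ψ ψ'‖ ≤ C₀
  sym : ∀ ψ ∈ Rc (3 * ρ) (3 * τ), ∀ ψ' ∈ Rc (3 * ρ) (3 * τ), s ψ ψ' = s ψ' ψ
  ev : ∀ ψ ∈ Rc (3 * ρ) (3 * τ), ∀ ψ' ∈ Rc (3 * ρ) (3 * τ), s (-ψ) ψ' = s ψ ψ'
  conc : ∀ ψ ∈ Rc (3 * ρ) (3 * τ), ∀ ψ' ∈ Rc (3 * ρ) (3 * τ),
    (deriv (deriv fun z => s z ψ') ψ).re ≤ -c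

/-- values of the potential near the origin -/
structure PV (ρ τ κ : ℝ) (s : ℂ → ℂ → ℂ) : Prop where
  hκ : 0 < κ ∧ κ ≤ bet
  low : ∀ ψ ∈ Rc (3 * ρ) (3 * τ), ∀ ψ' ∈ Rc (3 * ρ) (3 * τ), bet ≤ (s ψ ψ').re
  zero : |(s 0 0).re - 2 * bet| ≤ κ / 64

/-- a sequence of kernels with the potential `s` -/
structure KS (ρ τ κ : ℝ) (s : ℂ → ℂ → ℂ) (k : ℕ → ℂ → ℂ → ℂ) : Prop where
  sep : ∀ N : ℕ, ∃ (n : ℕ) (A B : ℕ → ℂ → ℂ),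
    (∀ d, Differentiable ℂ (A d) ∧ Differentiable ℂ (B d)) ∧
    ∀ ψ ψ' : ℂ, k N ψ ψ' = ∑ d ∈ range n, A d ψ * B d ψ'
  mw : ∀ ε : ℝ, 0 < ε → ∀ᶠ N : ℕ in atTop, ∀ ψ ∈ Rc (3 * ρ) (3 * τ),
    ∀ ψ' ∈ Rc (3 * ρ) (3 * τ), k N ψ ψ' ≠ 0 ∧ |Real.log ‖k N ψ ψ'‖ - N * (s ψ ψ').re| ≤ ε * N
  far : ∀ᶠ N : ℕ in atTop, ∀ ψ : ℂ, ρ ≤ |ψ.re| → |ψ.re| ≤ π → |ψ.im| ≤ 1 / N →
    ∀ ψ' ∈ Rc (3 * ρ) (3 * τ), ‖k N ψ ψ'‖ ≤ Real.exp (N * ((s 0 ψ').re - κ)) ∧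
      ‖k N ψ' ψ‖ ≤ Real.exp (N * ((s 0 ψ').re - κ))
  farg : ∀ᶠ N : ℕ in atTop, ∀ ψ ψ' : ℂ, |ψ.re| ≤ π → ρ ≤ |ψ'.re| → |ψ'.re| ≤ π →
    |ψ.im| ≤ 1 / N → |ψ'.im| ≤ 1 / N → ‖k N ψ ψ'‖ ≤ Real.exp (N * (2 * bet - 5 / 4 * κ)) ∧
      ‖k N ψ' ψ‖ ≤ Real.exp (N * (2 * bet - 5 / 4 * κ))
  farb : ∀ᶠ N : ℕ in atTop, ∀ ψ ψ' : ℂ, ρ ≤ |ψ.re| → |ψ.re| ≤ π → ρ ≤ |ψ'.re| →
    |ψ'.re| ≤ π → |ψ.im| ≤ 1 / N → |ψ'.im| ≤ 1 / N →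
      ‖k N ψ ψ'‖ ≤ Real.exp (N * (2 * bet - 2 * κ))

/-- the kernel of the ring with `n` edges -/
noncomputable def Wr (k : ℕ → ℂ → ℂ → ℂ) (n N : ℕ) (ψ : ℕ → ℂ) : ℂ :=
  ∏ j ∈ range n, k N (ψ j) (ψ ((j + 1) % n))

/-! ### The critical points of one step -/

/-- CPUG: `Pool.Agent.TH563.UV.S_CPU` for all potentials of the class, with the same constants -/
def S_CPUG : Prop := ∀ ρ τ κ c C₀ r₀ : ℝ, 0 < ρ → ρ ≤ 1 / 4 → 0 < τ → τ ≤ ρ → 0 < κ → 0 < c →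
  0 < C₀ → 0 < r₀ → ∃ ε₀ K : ℝ, 0 < ε₀ ∧ ε₀ ≤ κ / 16 ∧ 0 < K ∧ ∀ s : ℂ → ℂ → ℂ, PP ρ τ c C₀ s →
    (∀ (t : ℕ) (F : ℂ → ℂ), 1 ≤ t → DifferentiableOn ℂ F (Rc (3 * ρ) (3 * τ)) →
      (∀ ψ ∈ Rc (3 * ρ) (3 * τ), F (-ψ) = F ψ) →
      (∀ ψ ∈ Rc (3 * ρ) (3 * τ), ‖F ψ - F 0 - t * (s 0 ψ - s 0 0)‖ ≤ t * ε₀) →
      ∀ x : ℝ, |x| ≤ ρ → (F x).re ≤ (F 0).re - c / 4 * x ^ 2) ∧
    ∀ (t : ℕ) (F : ℂ → ℂ), DifferentiableOn ℂ F (Rc (3 * ρ) (3 * τ)) →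
      (∀ ψ ∈ Rc (3 * ρ) (3 * τ), F (-ψ) = F ψ) →
      (∀ ψ ∈ Rc (3 * ρ) (3 * τ), ‖F ψ - F 0 - t * (s 0 ψ - s 0 0)‖ ≤ t * ε₀) →
      ∀ a : ℤ,
        (K ^ 2 ≤ ((t + 1 : ℕ) : ℝ) ^ 2 + (a : ℝ) ^ 2 →
          ∃ (F' : ℂ → ℂ) (zs : ℂ → ℂ), DifferentiableOn ℂ F' (Rc (3 * ρ) (3 * τ)) ∧
          DifferentiableOn ℂ zs (Rc (3 * ρ) (3 * τ)) ∧
          (∀ ψ ∈ Rc (3 * ρ) (3 * τ), F' (-ψ) = F' ψ) ∧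
          (∀ ψ ∈ Rc (3 * ρ) (3 * τ), ‖F' ψ - F' 0 - (s 0 ψ - s 0 0)‖ ≤ ε₀) ∧
          (∀ ψ ∈ Rc (3 * ρ) (3 * τ), ‖F' ψ - F 0 - s 0 ψ‖ ≤ κ / 16) ∧
          ∀ ψ' ∈ Rc (3 * ρ) (3 * τ), CPu ρ τ r₀ (zs ψ') ∧
            SAD a (fun w => F w + s w ψ') ρ (zs ψ') ∧
            Complex.I * a * zs ψ' / (2 * π) + Complex.I + deriv F (zs ψ') +
              deriv (fun w => s w ψ') (zs ψ') = 0 ∧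
            F' ψ' = qq a F (zs ψ') + s (zs ψ') ψ' ∧
            HasDerivAt F' (deriv (fun w => s (zs ψ') w) ψ') ψ') ∧
        (1 ≤ t → K ^ 2 ≤ (t : ℝ) ^ 2 + (a : ℝ) ^ 2 → ∃ z : ℂ, CPu ρ τ r₀ z ∧ SAD a F ρ z ∧
          Complex.I * a * z / (2 * π) + Complex.I + deriv F z = 0 ∧
          ‖qq a F z - F 0‖ ≤ κ / 16)

/-! ### Chains with both ends at `w` -/

/-- CHVG: `Pool.Agent.Y481.S_CHV` for all potentials of the class, with the same constants -/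
def S_CHVG : Prop := ∀ ρ τ c C₀ : ℝ, 0 < ρ → ρ ≤ 1 / 4 → 0 < τ → τ ≤ ρ → 0 < c → 0 < C₀ →
  ∃ r M : ℝ, 0 < r ∧ r ≤ τ ∧ 0 < M ∧ ∀ s : ℂ → ℂ → ℂ, PP ρ τ c C₀ s →
    ∀ (m : ℕ) (a : ℕ → ℤ), 1 ≤ m → (∀ j < m, M ≤ |(a j : ℝ)|) →
    ∃ zz : ℂ → ℕ → ℂ, ∀ w ∈ Rc (2 * ρ) (2 * τ), (∀ j < m, ‖zz w j‖ ≤ r) ∧
      ChCrit s m a (ends m w w (zz w)) ∧
      (∀ z : ℕ → ℂ, (∀ j < m, ‖z j‖ ≤ r) → ChCrit s m a (ends m w w z) →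
        ∀ j < m, z j = zz w j) ∧
      HasDerivAt (fun w => ChVal s m a (ends m w w (zz w)))
        (deriv (fun v => s v (zz w 0)) w + deriv (fun v => s (zz w (m - 1)) v) w) w

/-! ### The ring -/

/-- RK: the growth rate of the ring; the constant `M` is absolute -/
def S_RK : Prop := ∀ ρ τ κ c C₀ : ℝ, 0 < ρ → ρ ≤ 1 / 4 → 0 < τ → τ ≤ ρ → 0 < κ → κ ≤ bet →
  0 < c → 0 < C₀ → ∃ M B : ℝ, 0 < M ∧ 0 < B ∧ ∀ (s : ℂ → ℂ → ℂ) (k : ℕ → ℂ → ℂ → ℂ),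
    PP ρ τ c C₀ s → PV ρ τ κ s → KS ρ τ κ s k →
    ∀ n : ℕ, 2 ≤ n → ∀ a : ℕ → ℤ, (∀ j < n, M ≤ |(a j : ℝ)|) →
      ∃ z : ℕ → ℂ, RCrit s ρ τ n a z ∧ (∀ j < n, |(a j : ℝ)| * ‖z j‖ ≤ B) ∧
        0 < (RVal s n a z).re ∧
        Tendsto (fun N : ℕ => Real.log ‖itI a N n (Wr k n N) 0‖ / N) atTop (𝓝 (RVal s n a z).re)

/-- CRVX: the critical configuration of the ring as a function of the parameter `χ`; the constants do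
not depend on the number `n` of vertices -/
def S_CRVX : Prop := ∀ (ρ₀ c C : ℝ) (s dl : ℂ → ℂ → ℂ → ℂ), Pool.Agent.Y472.SD3 ρ₀ c C s dl →
  ∃ R r c₂ B₂ C' M : ℝ, 0 < R ∧ R ≤ ρ₀ ∧ 0 < r ∧ r ≤ 1 / 10 ∧ 4 * r ≤ ρ₀ ∧ 0 < c₂ ∧ 0 < B₂ ∧ 0 < C' ∧
    0 < M ∧ ∀ (n : ℕ) (a : ℕ → ℤ), 2 ≤ n → (∀ j < n, M ≤ |(a j : ℝ)|) →
    ∃ (G : ℂ → ℂ) (z : ℂ → ℕ → ℂ), DifferentiableOn ℂ G (Rc R R) ∧
      (∀ χ ∈ Rc R R, G (-χ) = G χ ∧ (deriv (deriv G) χ).re ≤ -(c₂ * n) ∧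
        ‖deriv (deriv G) χ‖ ≤ B₂ * n) ∧
      (∀ χ ∈ Rc R R, (∀ j < n, ‖z χ j‖ ≤ r ∧ 0 < (z χ j).im ∧
          Complex.I * a ((j + 1) % n) * z χ ((j + 1) % n) / (2 * π) + Complex.I +
            deriv (fun w => s (z χ j) w χ) (z χ ((j + 1) % n)) +
            deriv (fun w => s w (z χ (((j + 1) % n + 1) % n)) χ) (z χ ((j + 1) % n)) = 0) ∧
        (∀ y : ℕ → ℂ, (∀ j < n, ‖y j‖ ≤ r ∧
          Complex.I * a ((j + 1) % n) * y ((j + 1) % n) / (2 * π) + Complex.I +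
            deriv (fun w => s (y j) w χ) (y ((j + 1) % n)) +
            deriv (fun w => s w (y (((j + 1) % n + 1) % n)) χ) (y ((j + 1) % n)) = 0) →
          ∀ j < n, y j = z χ j) ∧
        deriv G χ = ∑ j ∈ range n, deriv (fun w => s (z χ j) (z χ ((j + 1) % n)) w) χ ∧
        G χ = ∑ j ∈ range n, (Complex.I * a j * z χ j ^ 2 / (4 * π) +
          Complex.I * z χ j + s (z χ j) (z χ ((j + 1) % n)) χ)) ∧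
      ∀ m : ℝ, 0 < m → (∀ j < n, m ≤ |(a j : ℝ)|) → ∀ χ ∈ Rc R R,
        ‖G χ - n * s 0 0 χ‖ ≤ n * (C' / m) ∧ ∀ j < n, ‖z χ j‖ ≤ C' / m

/-! ### The kernel with the parameter `χ` -/

/-- KSX: the properties of the full kernel at `χ` in the upper half plane, near `0` -/
def S_KSX : Prop := Pool.Agent.Y472.S_KB3 → Pool.Agent.Y472.S_MWK3 → Pool.Agent.Y472.KRZc →
  ∀ (ρ₀ c C : ℝ) (s dl : ℂ → ℂ → ℂ → ℂ), Pool.Agent.Y472.SD3 ρ₀ c C s dl →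
  ∃ ρ τ κ c' C₀ R : ℝ, 0 < κ ∧ 3 * ρ ≤ ρ₀ ∧ 0 < R ∧ R ≤ ρ₀ ∧
    (∀ χ ∈ Rc R R, PP ρ τ c' C₀ (fun ψ ψ' => s ψ ψ' χ) ∧ PV ρ τ κ (fun ψ ψ' => s ψ ψ' χ)) ∧
    ∀ χ₀ ∈ Rc R R, 0 < χ₀.im → ∀ χs : ℕ → ℂ, Tendsto χs atTop (𝓝 χ₀) →
      KS ρ τ κ (fun ψ ψ' => s ψ ψ' χ₀) (fun N ψ ψ' => Pool.Agent.Y472.kF N ψ ψ' (χs N))

/-! ### Assembly -/

/-- XFA: the growth rate of the ring with the kernel `kF N · · χ`, locally uniformly for `χ` in the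
upper half plane near `0`; the constants do not depend on the number of twist regions -/
def S_XFA : Prop := ∀ (ρ₀ c C : ℝ) (s dl : ℂ → ℂ → ℂ → ℂ), Pool.Agent.Y472.SD3 ρ₀ c C s dl →
  ∃ R c₂ B₂ C' M : ℝ, 0 < R ∧ R ≤ 1 ∧ R ≤ ρ₀ ∧ 0 < c₂ ∧ 0 < B₂ ∧ 0 < C' ∧ 0 < M ∧
    ∀ ls : List (ℤ × ℤ), ls ≠ [] → (∀ p ∈ ls, M ≤ |(p.1 : ℝ)| ∧ M ≤ |(p.2 : ℝ)|) →
    ∃ (G : ℂ → ℂ) (z : ℂ → ℕ → ℂ),
      DifferentiableOn ℂ G (Rc R R) ∧ (∀ χ ∈ Rc R R, G (-χ) = G χ) ∧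
      (∀ χ ∈ Rc R R, (deriv (deriv G) χ).re ≤ -(c₂ * ls.length) ∧
        ‖deriv (deriv G) χ‖ ≤ B₂ * ls.length) ∧
      (∀ K : Set ℂ, IsCompact K → K ⊆ Rc R R → (∀ χ ∈ K, 0 < χ.im) →
        ∀ ε : ℝ, 0 < ε → ∀ᶠ N : ℕ in atTop, ∀ χ ∈ K,
          itI (cw ls) N (2 * ls.length) (Pool.Agent.Y472.WkF (2 * ls.length) N χ) 0 ≠ 0 ∧
          |Real.log ‖itI (cw ls) N (2 * ls.length) (Pool.Agent.Y472.WkF (2 * ls.length) N χ) 0‖ -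
            N * (G χ).re| ≤ ε * N) ∧
      (∀ χ ∈ Rc R R, (∀ j < 2 * ls.length, z χ j ∈ Rc ρ₀ ρ₀ ∧ 0 < (z χ j).im ∧
          ‖z χ j‖ ≤ 1 / 10 ∧
          Complex.I * cw ls ((j + 1) % (2 * ls.length)) * z χ ((j + 1) % (2 * ls.length)) / (2 * π) +
            Complex.I +
            deriv (fun w => s (z χ j) w χ) (z χ ((j + 1) % (2 * ls.length))) +
            deriv (fun w => s w (z χ (((j + 1) % (2 * ls.length) + 1) % (2 * ls.length))) χ)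
              (z χ ((j + 1) % (2 * ls.length))) = 0) ∧
        deriv G χ = ∑ j ∈ range (2 * ls.length),
          deriv (fun w => s (z χ j) (z χ ((j + 1) % (2 * ls.length))) w) χ ∧
        G χ = ∑ j ∈ range (2 * ls.length), (Complex.I * cw ls j * z χ j ^ 2 / (4 * π) +
          Complex.I * z χ j + s (z χ j) (z χ ((j + 1) % (2 * ls.length))) χ)) ∧
      ∀ m : ℝ, (∀ p ∈ ls, m ≤ |(p.1 : ℝ)| ∧ m ≤ |(p.2 : ℝ)|) → 0 < m → ∀ χ ∈ Rc R R,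
        ‖G χ - 2 * ls.length * s 0 0 χ‖ ≤ ls.length * (C' / m) ∧
          ∀ j < 2 * ls.length, ‖z χ j‖ ≤ C' / m

end Pool.Agent.Y481.X
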