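import Pool.Agent.Y481.X.Defs

/-!
# Chains of critical points, general potentials
-/

set_option autoImplicit false

namespace Pool.Agent.Y481.X

open Finset Filter Topology Metric MeasureTheory
open Pool.Agent.W711.HT
open Pool.Agent.Y481
open Pool.Agent.TH563.UV (CPu)
open Pool.Agent.W85.HT (Kc Kc_mem Kc_compact Rc_mono lap_strong)
open scoped Real

/-- both properties of the potential -/
structure PK (ρ τ κ c C₀ : ℝ) (s : ℂ → ℂ → ℂ) : Prop extends PP ρ τ c C₀ s, PV ρ τ κ s

section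

variable {ρ τ κ c C₀ ε₀ r₀ K : ℝ} {s : ℂ → ℂ → ℂ} {m : ℕ} {a : ℕ → ℤ} {r : ℕ → ℝ}
  {f : ℕ → (ℕ → ℂ) → ℂ} {p : ℂ} {Q zs : ℕ → ℂ → ℂ}

theorem cc_exists (hK : PK ρ τ κ c C₀ s) (hcp : CPU1 ρ τ κ ε₀ r₀ K s)
    (hpR : p ∈ Rc (3 * ρ) (3 * τ))
    (hp : ∀ ψ ∈ Rc (3 * ρ) (3 * τ), ‖s p ψ - s p 0 - (s 0 ψ - s 0 0)‖ ≤ ε₀)
    (m : ℕ) (ha : ∀ i < m, K ≤ |(a i : ℝ)|) : ∃ Q zs : ℕ → ℂ → ℂ, CC ρ τ κ ε₀ r₀ s a m p Q zs := by
  induction m with
  | zero =>
    refine ⟨fun _ v => s p v, fun _ v => v, rfl, ?_, ?_, ?_, fun j hj => by omega,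
      fun j hj => by omega⟩
    · intro j _
      have : DifferentiableOn ℂ (fun w : ℂ => (p, w)) (Rc (3 * ρ) (3 * τ)) :=
        ((differentiable_const p).prodMk differentiable_id).differentiableOn
      exact hK.san.comp this (fun w hw => ⟨hpR, hw⟩)
    · intro j _ ψ hψ
      have hneg : -ψ ∈ Rc (3 * ρ) (3 * τ) := by
        refine ⟨?_, ?_⟩
        · rw [Complex.neg_re, abs_neg]; exact hψ.1
        · rw [Complex.neg_im, abs_neg]; exact hψ.2
      beta_reduce
      rw [hK.sym p hpR _ hneg, hK.ev ψ hψ p hpR, hK.sym ψ hψ p hpR]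
    · intro j _ ψ hψ
      exact hp ψ hψ
  | succ m ih =>
    obtain ⟨Q, zs, h⟩ := ih (fun i hi => ha i (by omega))
    obtain ⟨Q', z', h1, h2, h3, h4, h5, h6⟩ := hcp (Q m) (h.an m le_rfl) (h.ev m le_rfl)
      (h.cl m le_rfl) (a m) (ha m (by omega))
    have eQ : ∀ j, j ≤ m → Function.update Q (m + 1) Q' j = Q j := fun j hj => by
      rw [Function.update_of_ne (by omega)]
    have eZ : ∀ j, j < m → Function.update zs m z' j = zs j := fun j hj => by
      rw [Function.update_of_ne (by omega)]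
    have eQ' : Function.update Q (m + 1) Q' (m + 1) = Q' := Function.update_self ..
    have eZ' : Function.update zs m z' m = z' := Function.update_self ..
    refine ⟨Function.update Q (m + 1) Q', Function.update zs m z', ?_, ?_, ?_, ?_, ?_, ?_⟩
    · rw [eQ 0 (by omega)]
      exact h.q0
    · intro j hj
      rcases Nat.lt_or_ge m j with hj' | hj'
      · have : j = m + 1 := by omega
        rw [this, eQ']
        exact h1
      · rw [eQ j hj']
        exact h.an j hj'
    · intro j hj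
      rcases Nat.lt_or_ge m j with hj' | hj'
      · have : j = m + 1 := by omega
        rw [this, eQ']
        exact h3
      · rw [eQ j hj']
        exact h.ev j hj'
    · intro j hj
      rcases Nat.lt_or_ge m j with hj' | hj'
      · have : j = m + 1 := by omega
        rw [this, eQ']
        exact h4
      · rw [eQ j hj']
        exact h.cl j hj'
    · intro j hj
      rcases Nat.lt_or_ge j m with hj' | hj'
      · rw [eZ j hj']
        exact h.zan j hj'
      · have : j = m := by omega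
        rw [this, eZ']
        exact h2
    · intro j hj ψ hψ
      rcases Nat.lt_or_ge j m with hj' | hj'
      · rw [eZ j hj', eQ j hj'.le, eQ (j + 1) hj']
        exact h.st j hj' ψ hψ
      · have : j = m := by omega
        rw [this, eZ', eQ', eQ m le_rfl]
        exact ⟨h5 ψ hψ, h6 ψ hψ⟩

theorem cc_pos (hK : PK ρ τ κ c C₀ s) (h : CC ρ τ κ ε₀ r₀ s a m p Q zs)
    (hpR : p ∈ Rc (3 * ρ) (3 * τ)) {j : ℕ} (hj : j ≤ m) : ∀ ψ ∈ Rc (3 * ρ) (3 * τ), κ / 2 ≤ (Q j ψ).re := by
  have hκ := hK.hκ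
  have m0 : (0 : ℂ) ∈ Rc (3 * ρ) (3 * τ) :=
    zero_mem_Rc (by linarith [hK.hρ.1]) (by linarith [hK.hτ.1])
  induction j with
  | zero =>
    intro ψ hψ
    rw [h.q0]
    have := hK.low p hpR ψ hψ
    linarith [hκ.1, hκ.2]
  | succ j ih =>
    intro ψ hψ
    have h1 := (Complex.abs_re_le_norm _).trans (h.st j (by omega) ψ hψ).1
    rw [Complex.sub_re, Complex.sub_re] at h1
    have h2 := hK.low 0 m0 ψ hψ
    have h3 := ih (by omega) 0 m0
    linarith [(abs_le.1 h1).1, hκ.1, hκ.2]

theorem cc_val (hK : PK ρ τ κ c C₀ s) (h : CC ρ τ κ ε₀ r₀ s a m p Q zs) {j : ℕ} (hj : j ≤ m) :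
    ‖Q j 0 - s p 0 - j * s 0 0‖ ≤ j * (κ / 16) := by
  have m0 : (0 : ℂ) ∈ Rc (3 * ρ) (3 * τ) :=
    zero_mem_Rc (by linarith [hK.hρ.1]) (by linarith [hK.hτ.1])
  induction j with
  | zero =>
    rw [h.q0]
    simp
  | succ j ih =>
    have h1 := (h.st j (by omega) 0 m0).1
    have e1 : Q (j + 1) 0 - s p 0 - ((j + 1 : ℕ) : ℂ) * s 0 0 =
        (Q (j + 1) 0 - Q j 0 - s 0 0) + (Q j 0 - s p 0 - j * s 0 0) := by
      push_cast
      ring
    rw [e1]
    refine (norm_add_le _ _).trans ?_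
    have h2 := ih (by omega)
    push_cast
    linarith

theorem cc_ch (hK : PK ρ τ κ c C₀ s) (h : CC ρ τ κ ε₀ r₀ s a m p Q zs)
    (hpR : p ∈ Rc (3 * ρ) (3 * τ)) {j : ℕ} (hj : j ≤ m) :
    ∀ ψ' ∈ Rc (3 * ρ) (3 * τ), ∃ z : ℕ → ℂ, (∀ i < j, CPu ρ τ r₀ (z i)) ∧
      ChCrit s j a (ends j p ψ' z) ∧ Q j ψ' = ChVal s j a (ends j p ψ' z) ∧
      HasDerivAt (Q j) (deriv (fun v => s (ends j p ψ' z j) v) ψ') ψ' := by
  obtain ⟨hρ0, -⟩ := hK.hρ
  obtain ⟨hτ0, -⟩ := hK.hτ
  induction j with
  | zero =>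
    intro ψ' hψ'
    refine ⟨fun _ => 0, by simp, ?_, ?_, ?_⟩
    · intro i hi
      omega
    · rw [h.q0]
      simp [ChVal, ends]
    · have e : ends 0 p ψ' (fun _ => 0) 0 = p := by simp [ends]
      have h1 := h.an 0 (by omega)
      rw [h.q0] at h1 ⊢
      rw [e]
      exact (h1.differentiableAt
        ((Pool.Agent.W85.HT.open_Rc (3 * ρ) (3 * τ)).mem_nhds hψ')).hasDerivAt
  | succ j ih =>
    intro ψ' hψ'
    obtain ⟨-, hz1, -, hz3, hz4, hz5⟩ := h.st j (by omega) ψ' hψ'
    have hzR : zs j ψ' ∈ Rc (3 * ρ) (3 * τ) := Rc_mono (by linarith) (by linarith) hz1.mem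
    obtain ⟨z, k1, k2, k3, k4⟩ := ih (by omega) (zs j ψ') hzR
    have hes : ∀ i, i ≤ j + 1 → ends (j + 1) p ψ' (Function.update z j (zs j ψ')) i =
        ends j p (zs j ψ') z i := fun i hi => ends_succ hi
    refine ⟨Function.update z j (zs j ψ'), ?_, ?_, ?_, ?_⟩
    · intro i hi
      by_cases hij : i = j
      · rw [hij, Function.update_self]
        exact hz1
      · rw [Function.update_of_ne hij]
        exact k1 i (by omega)
    · intro i hi
      by_cases hij : i = j
      · subst hij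
        rw [hes i (by omega), hes (i + 1) le_rfl, ends_last, ends_last, ← k4.deriv]
        exact hz3
      · rw [hes i (by omega), hes (i + 1) (by omega), hes (i + 2) (by omega)]
        exact k2 i (by omega)
    · rw [hz4, qq, k3]
      have e1 : ∑ i ∈ range j, (Complex.I * (a i) *
          ends (j + 1) p ψ' (Function.update z j (zs j ψ')) (i + 1) ^ 2 / (4 * π) +
            Complex.I * ends (j + 1) p ψ' (Function.update z j (zs j ψ')) (i + 1)) =
          ∑ i ∈ range j, (Complex.I * (a i) * ends j p (zs j ψ') z (i + 1) ^ 2 / (4 * π) +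
            Complex.I * ends j p (zs j ψ') z (i + 1)) := by
        refine sum_congr rfl fun i hi => ?_
        rw [mem_range] at hi
        rw [hes (i + 1) (by omega)]
      have e2 : ∑ i ∈ range (j + 1), s (ends (j + 1) p ψ' (Function.update z j (zs j ψ')) i)
          (ends (j + 1) p ψ' (Function.update z j (zs j ψ')) (i + 1)) =
          ∑ i ∈ range (j + 1), s (ends j p (zs j ψ') z i) (ends j p (zs j ψ') z (i + 1)) := by
        refine sum_congr rfl fun i hi => ?_
        rw [mem_range] at hi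
        rw [hes i (by omega), hes (i + 1) (by omega)]
      have e3 : ChVal s (j + 1) a (ends (j + 1) p ψ' (Function.update z j (zs j ψ'))) =
          ChVal s j a (ends j p (zs j ψ') z) + (Complex.I * (a j) * zs j ψ' ^ 2 / (4 * π) +
            Complex.I * zs j ψ') + s (zs j ψ') ψ' := by
        unfold ChVal
        rw [sum_range_succ, sum_range_succ _ (j + 1), hes (j + 1) le_rfl, ends_last, ends_last,
          e1, e2]
        ring
      rw [e3]
      ring
    · rw [hes (j + 1) le_rfl, ends_last]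
      exact hz5

/-- asymptotics after the elimination of `j` variables -/
theorem cc_lim (hK : PK ρ τ κ c C₀ s) (h : CC ρ τ κ ε₀ r₀ s a m p Q zs)
    (hpR : p ∈ Rc (3 * ρ) (3 * τ))
    (hf : ∀ N, 1 ≤ N → Sep (m + 1) (f N)) (hr : ∀ i < m, r i = ρ)
    (hlim : ∀ (ψ : ℕ → ℕ → ℂ) (ψ₀ : ℕ → ℂ), (∀ i < m, ψ₀ i ∈ Kc (2 * ρ) (2 * τ)) → ψ₀ m = p →
      (∀ i ≤ m, Tendsto (fun N => ψ N i) atTop (𝓝 (ψ₀ i))) →
      Tendsto (fun N => Real.log ‖f N (ψ N)‖ / N) atTop
        (𝓝 (∑ j ∈ range (m + 1), s (ψ₀ j) (ψ₀ ((j + 1) % (m + 1)))).re))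
    {j : ℕ} (hj : j ≤ m) : ∀ (ψ : ℕ → ℕ → ℂ) (ψ₀ : ℕ → ℂ),
      (∀ i, j ≤ i → i < m → ψ₀ i ∈ Kc (2 * ρ) (2 * τ)) → ψ₀ m = p →
      (∀ i, j ≤ i → i ≤ m → Tendsto (fun N => ψ N i) atTop (𝓝 (ψ₀ i))) →
      Tendsto (fun N => Real.log ‖itN r a N j (f N) (ψ N)‖ / N) atTop
        (𝓝 (Q j (ψ₀ j) + rest s m j ψ₀).re) := by
  obtain ⟨hρ0, hρ1⟩ := hK.hρ
  obtain ⟨hτ0, hτ1⟩ := hK.hτ
  obtain ⟨hκ0, hκ1⟩ := hK.hκ
  have hπ := Real.pi_gt_three
  have hbet : 0 < bet := bet_pos
  induction j with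
  | zero =>
    intro ψ ψ₀ h1 h2 h3
    have h4 := hlim ψ ψ₀ (fun i hi => h1 i (Nat.zero_le _) hi) h2
      (fun i hi => h3 i (Nat.zero_le _) hi)
    have e1 : ∑ j ∈ range (m + 1), s (ψ₀ j) (ψ₀ ((j + 1) % (m + 1))) =
        s p (ψ₀ 0) + rest s m 0 ψ₀ := by
      rw [sum_range_succ, Nat.mod_self, h2, add_comm]
      congr 1
      unfold rest
      rw [Nat.Ico_zero_eq_range]
      refine sum_congr rfl fun i hi => ?_
      rw [Nat.mod_eq_of_lt (by rw [mem_range] at hi; omega)]
    rw [e1] at h4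
    rw [h.q0]
    exact h4
  | succ j ih =>
    intro ψ ψ₀ h1 h2 h3
    have hjm : j < m := by omega
    have hKK : Kc (2 * ρ) (2 * τ) ⊆ Rc (3 * ρ) (3 * τ) := Kc_sub_Rc (by linarith) (by linarith)
    have hRK : Rc (2 * ρ) (2 * τ) ⊆ Kc (2 * ρ) (2 * τ) := Rc_sub_Kc
    have hR23 : Rc (2 * ρ) (2 * τ) ⊆ Rc (3 * ρ) (3 * τ) := hRK.trans hKK
    set v₀ := ψ₀ (j + 1) with hv₀
    have hv₀R : v₀ ∈ Rc (3 * ρ) (3 * τ) := by
      rcases Nat.lt_or_ge (j + 1) m with h' | h'
      · exact hKK (h1 _ le_rfl h')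
      · have : j + 1 = m := by omega
        rw [hv₀, this, h2]
        exact hpR
    obtain ⟨-, hz1, hz2, -, hz4, -⟩ := h.st j hjm v₀ hv₀R
    set K₀ := rest s m (j + 1) ψ₀ with hK₀
    have hK₀pos : 0 ≤ K₀.re := by
      rw [hK₀]
      unfold rest
      rw [Complex.re_sum]
      refine sum_nonneg fun i hi => ?_
      rw [mem_Ico] at hi
      have t1 : ψ₀ i ∈ Rc (3 * ρ) (3 * τ) := hKK (h1 i hi.1 hi.2)
      have t2 : ψ₀ (i + 1) ∈ Rc (3 * ρ) (3 * τ) := by
        rcases Nat.lt_or_ge (i + 1) m with h' | h'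
        · exact hKK (h1 _ (by omega) h')
        · have : i + 1 = m := by omega
          rw [this, h2]
          exact hpR
      exact hbet.le.trans (hK.low _ t1 _ t2)
    have hsd : DifferentiableOn ℂ (fun w => s w v₀) (Rc (3 * ρ) (3 * τ)) := by
      have : DifferentiableOn ℂ (fun w : ℂ => (w, v₀)) (Rc (3 * ρ) (3 * τ)) :=
        (differentiable_id.prodMk (differentiable_const v₀)).differentiableOn
      exact hK.san.comp this (fun w hw => ⟨hw, hv₀R⟩)
    have hGd : DifferentiableOn ℂ (fun w => (Q j w + s w v₀) + K₀) (Rc (3 * ρ) (3 * τ)) :=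
      ((h.an j hjm.le).add hsd).add_const _
    have hmw : MW (fun N w => itN r a N j (f N) (Function.update (ψ N) j w))
        (fun w => (Q j w + s w v₀) + K₀) (Rc (2 * ρ) (2 * τ)) := by
      refine mw_of_seq (Kc_compact (2 * ρ) (2 * τ)) hRK (c := κ / 2) (by positivity)
        (hGd.continuousOn.mono hKK) ?_ ?_
      · intro w hw
        rw [Complex.add_re, Complex.add_re]
        have t1 := cc_pos hK h hpR hjm.le w (hKK hw)
        have t2 := hK.low w (hKK hw) v₀ hv₀R
        linarith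
      · intro w w₀ hw₀ hw hlim
        have := ih (by omega) (fun N => Function.update (ψ N) j (w N))
          (Function.update ψ₀ j w₀) ?_ ?_ ?_
        · rw [Function.update_self, rest_succ s hjm, Function.update_self,
            Function.update_of_ne (by omega), rest_congr s (φ := ψ₀) (j := j + 1) (by
              intro i hi
              rw [Function.update_of_ne (by omega)]), ← add_assoc] at this
          exact this
        · intro i hi1 hi2
          by_cases hij : i = j
          · rw [hij, Function.update_self]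
            exact hw₀
          · rw [Function.update_of_ne hij]
            exact h1 i (by omega) hi2
        · rw [Function.update_of_ne (by omega)]
          exact h2
        · intro i hi1 hi2
          by_cases hij : i = j
          · subst hij
            simp only [Function.update_self]
            exact hlim
          · simp only [Function.update_of_ne hij]
            exact h3 i (by omega) hi2
    have z3 : (zs j v₀).im < τ := by
      have := hz1.mem.2
      rwa [abs_of_pos hz1.im] at this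
    have hbds := lap_strong f_LAPINT (a := a j) (z := zs j v₀) hρ0 hτ0 (by linarith)
      (Y := fun N w => itN r a N j (f N) (Function.update (ψ N) j w))
      (G := fun w => (Q j w + s w v₀) + K₀)
      (by
        filter_upwards [eventually_ge_atTop 1] with N hN
        exact ((itG_sep (fun i => LN_lin (r i) (a i) hN) (hf N hN) (by omega)).diff
          (ψ N) j).differentiableOn)
      (hGd.mono hR23) hmw hz1.mem.1 hz1.im z3 (SAD_shift hz2 K₀)
    have hV : (qq (a j) (fun w => (Q j w + s w v₀) + K₀) (zs j v₀)).re =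
        (Q (j + 1) v₀ + K₀).re := by
      rw [hz4]
      congr 1
      unfold qq
      ring
    rw [hV] at hbds
    have hlim := lim_of_bds hbds
    refine hlim.congr fun N => ?_
    congr 3
    show _ = LN (r j) (a j) N (fun w => itN r a N j (f N) (Function.update (ψ N) j w))
    rw [hr j hjm]
    rfl

end

end Pool.Agent.Y481.X
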