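import Pool.Agent.Y481.X.Rec3
import Pool.Agent.Y481.Even

/-!
# The value of a chain is an even function of the common end, general potentials
-/

set_option autoImplicit false

namespace Pool.Agent.Y481.X

open Finset Filter Topology Metric MeasureTheory
open Pool.Agent.W711.HT
open Pool.Agent.Y481
open Pool.Agent.W85.HT (Kc Kc_mem Kc_compact Rc_mono xy_re xy_im)
open scoped Real

section

variable {ρ τ c C₀ : ℝ} {s : ℂ → ℂ → ℂ}

lemma pp_ev2 (hK : PP ρ τ c C₀ s) {u v : ℂ} (hu : u ∈ Rc (3 * ρ) (3 * τ))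
    (hv : v ∈ Rc (3 * ρ) (3 * τ)) : s v (-u) = s v u := by
  rw [hK.sym v hv _ (neg_mem_Rc hu), hK.ev u hu v hv, hK.sym u hu v hv]

lemma deriv_ev1 (hK : PP ρ τ c C₀ s) {u v : ℂ} (hu : u ∈ Rc (3 * ρ) (3 * τ))
    (hv : v ∈ Rc (3 * ρ) (3 * τ)) : deriv (fun v => s (-u) v) v = deriv (fun v => s u v) v := by
  apply Filter.EventuallyEq.deriv_eq
  filter_upwards [(Pool.Agent.W85.HT.open_Rc (3 * ρ) (3 * τ)).mem_nhds hv] with x hx
  exact hK.ev u hu x hx

lemma deriv_ev2 (hK : PP ρ τ c C₀ s) {u v : ℂ} (hu : u ∈ Rc (3 * ρ) (3 * τ))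
    (hv : v ∈ Rc (3 * ρ) (3 * τ)) : deriv (fun v => s v (-u)) v = deriv (fun v => s v u) v := by
  apply Filter.EventuallyEq.deriv_eq
  filter_upwards [(Pool.Agent.W85.HT.open_Rc (3 * ρ) (3 * τ)).mem_nhds hv] with x hx
  exact pp_ev2 hK hu hx

lemma deriv_sym (hK : PP ρ τ c C₀ s) {u v : ℂ} (hu : u ∈ Rc (3 * ρ) (3 * τ))
    (hv : v ∈ Rc (3 * ρ) (3 * τ)) : deriv (fun v => s u v) v = deriv (fun v => s v u) v := by
  apply Filter.EventuallyEq.deriv_eq
  filter_upwards [(Pool.Agent.W85.HT.open_Rc (3 * ρ) (3 * τ)).mem_nhds hv] with x hx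
  exact hK.sym u hu x hx

lemma chain_neg (hK : PP ρ τ c C₀ s) {m : ℕ} {a : ℕ → ℤ} {w : ℂ}
    (hw : w ∈ Rc (3 * ρ) (3 * τ)) {z : ℕ → ℂ} (hz : ∀ j < m, z j ∈ Rc (3 * ρ) (3 * τ))
    (h : ChCrit s m a (ends m w w z)) : ChCrit s m a (ends m (-w) (-w) z) := by
  intro j hj
  have h1 := h j hj
  rw [ends_mid hj] at h1 ⊢
  have e1 : deriv (fun v => s (ends m (-w) (-w) z j) v) (z j) =
      deriv (fun v => s (ends m w w z j) v) (z j) := by
    rcases Nat.eq_zero_or_pos j with h0 | h0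
    · rw [h0, ends_zero, ends_zero]
      exact deriv_ev1 hK hw (hz 0 (by omega))
    · obtain ⟨i, rfl⟩ : ∃ i, j = i + 1 := ⟨j - 1, by omega⟩
      rw [ends_mid (by omega), ends_mid (by omega)]
  have e2 : deriv (fun v => s v (ends m (-w) (-w) z (j + 2))) (z j) =
      deriv (fun v => s v (ends m w w z (j + 2))) (z j) := by
    rcases Nat.lt_or_ge (j + 1) m with h0 | h0
    · rw [ends_mid h0, ends_mid h0]
    · have : j + 2 = m + 1 := by omega
      rw [this, ends_last, ends_last]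
      exact deriv_ev2 hK hw (hz j hj)
  rw [e1, e2]
  exact h1

lemma chval_neg (hK : PP ρ τ c C₀ s) {m : ℕ} (hm : 1 ≤ m) {a : ℕ → ℤ} {w : ℂ}
    (hw : w ∈ Rc (3 * ρ) (3 * τ)) {z : ℕ → ℂ} (hz : ∀ j < m, z j ∈ Rc (3 * ρ) (3 * τ)) :
    ChVal s m a (ends m (-w) (-w) z) = ChVal s m a (ends m w w z) := by
  unfold ChVal
  congr 1
  · refine sum_congr rfl fun j hj => ?_
    rw [mem_range] at hj
    rw [ends_mid hj, ends_mid hj]
  · refine sum_congr rfl fun j hj => ?_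
    rw [mem_range] at hj
    rcases Nat.eq_zero_or_pos j with h0 | h0
    · rw [h0, ends_zero, ends_zero, ends_mid (by omega), ends_mid (by omega)]
      exact hK.ev w hw _ (hz 0 (by omega))
    · obtain ⟨i, rfl⟩ : ∃ i, j = i + 1 := ⟨j - 1, by omega⟩
      have hi : i < m := by omega
      rw [ends_mid hi, ends_mid hi]
      rcases Nat.lt_or_ge (i + 1) m with h1 | h1
      · rw [ends_mid h1, ends_mid h1]
      · have : i + 1 + 1 = m + 1 := by omega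
        rw [this, ends_last, ends_last]
        exact pp_ev2 hK hw (hz i (by omega))

end

/-! ### Small values -/

/-- monotonicity of the class of potentials -/
lemma PP.mono {ρ τ ρ' τ' c C₀ : ℝ} {s : ℂ → ℂ → ℂ} (h : PP ρ τ c C₀ s) (h1 : 0 < ρ') (h2 : ρ' ≤ ρ)
    (h3 : 0 < τ') (h4 : τ' ≤ τ) (h5 : τ' ≤ ρ') : PP ρ' τ' c C₀ s := by
  have hs : Rc (3 * ρ') (3 * τ') ⊆ Rc (3 * ρ) (3 * τ) := Rc_mono (by linarith) (by linarith)
  exact
    { hρ := ⟨h1, h2.trans h.hρ.2⟩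
      hτ := ⟨h3, h5⟩
      hc := h.hc
      hC := h.hC
      san := h.san.mono (Set.prod_mono hs hs)
      sbd := fun ψ hψ ψ' hψ' => h.sbd ψ (hs hψ) ψ' (hs hψ')
      sym := fun ψ hψ ψ' hψ' => h.sym ψ (hs hψ) ψ' (hs hψ')
      ev := fun ψ hψ ψ' hψ' => h.ev ψ (hs hψ) ψ' (hs hψ')
      conc := fun ψ hψ ψ' hψ' => h.conc ψ (hs hψ) ψ' (hs hψ') }

/-- small values of the first variable -/
lemma pp_small {ρ τ c C₀ : ℝ} {s : ℂ → ℂ → ℂ} (h : PP ρ τ c C₀ s) {u v : ℂ}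
    (hu : u ∈ Rc (2 * ρ) (2 * τ)) (hv : v ∈ Rc (3 * ρ) (3 * τ)) :
    ‖s u v - s 0 v‖ ≤ (8 * C₀ / τ ^ 2 + 1) * ‖u‖ ^ 2 := by
  have hC : 0 ≤ 8 * C₀ / τ ^ 2 + 1 := by
    have := h.hC
    have := h.hτ.1
    positivity
  exact (gh_s h v hv).val h.hρ.1 h.hτ.1 hC hu

/-- the derivatives for small `z` -/
lemma pp_der {ρ τ c C₀ : ℝ} {s : ℂ → ℂ → ℂ} (h : PP ρ τ c C₀ s) {z w : ℂ}
    (hz : z ∈ Rc (2 * ρ) (2 * τ)) (hw : w ∈ Rc (2 * ρ) (2 * τ)) :
    ‖deriv (fun v => s v z) w - deriv (fun v => s v 0) w‖ ≤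
      (8 * C₀ / τ ^ 2 + 1) * ‖z‖ ^ 2 / (τ / 2) := by
  have hρ := h.hρ
  have hτ := h.hτ
  have hz3 : z ∈ Rc (3 * ρ) (3 * τ) := Rc_mono (by linarith) (by linarith) hz
  have m0 : (0 : ℂ) ∈ Rc (3 * ρ) (3 * τ) := zero_mem_Rc (by linarith) (by linarith)
  have hball : ∀ x : ℂ, ‖x - w‖ < τ → x ∈ Rc (3 * ρ) (3 * τ) := by
    intro x hx
    have h1 := Complex.abs_re_le_norm (x - w)
    have h2 := Complex.abs_im_le_norm (x - w)
    rw [Complex.sub_re] at h1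
    rw [Complex.sub_im] at h2
    have h3 := abs_sub_abs_le_abs_sub x.re w.re
    have h4 := abs_sub_abs_le_abs_sub x.im w.im
    exact ⟨by linarith [hw.1], by linarith [hw.2]⟩
  have han : ∀ u ∈ Rc (3 * ρ) (3 * τ), DifferentiableOn ℂ (fun v => s v u) (Rc (3 * ρ) (3 * τ)) := by
    intro u hu
    have : DifferentiableOn ℂ (fun w : ℂ => (w, u)) (Rc (3 * ρ) (3 * τ)) :=
      (differentiable_id.prodMk (differentiable_const u)).differentiableOn
    exact h.san.comp this (fun w hw => ⟨hw, hu⟩)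
  have hw3 : w ∈ Rc (3 * ρ) (3 * τ) := Rc_mono (by linarith) (by linarith) hw
  have hnhds := (Pool.Agent.W85.HT.open_Rc (3 * ρ) (3 * τ)).mem_nhds hw3
  have e1 : deriv (fun v => s v z) w - deriv (fun v => s v 0) w =
      deriv (fun v => s v z - s v 0) w := by
    rw [deriv_fun_sub ((han z hz3).differentiableAt hnhds) ((han 0 m0).differentiableAt hnhds)]
  rw [e1]
  have hsub : closedBall w (τ / 2) ⊆ Rc (3 * ρ) (3 * τ) := by
    intro x hx
    rw [mem_closedBall, dist_eq_norm] at hx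
    exact hball x (by linarith)
  refine Complex.norm_deriv_le_of_forall_mem_sphere_norm_le (by linarith) ?_ ?_
  · exact (((han z hz3).sub (han 0 m0)).mono hsub).diffContOnCl_ball (by rfl)
  · intro x hx
    have hx3 := hsub (sphere_subset_closedBall hx)
    rw [h.sym x hx3 z hz3, h.sym x hx3 0 m0]
    exact pp_small h hz hx3

end Pool.Agent.Y481.X
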