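import Pool.Agent.Y481.X.Ring

/-!
# The growth rate of the ring, absolute constants, general kernels
-/

set_option autoImplicit false

namespace Pool.Agent.Y481.X

open Finset Filter Topology Metric MeasureTheory
open Pool.Agent.W711.HT
open Pool.Agent.Y481
open Pool.Agent.TH563.UV (CPu)
open Pool.Agent.W85.HT (Kc Kc_mem Kc_compact Rc_mono lap_strong)
open scoped Real

section

variable {ρ τ κ c C₀ ε₀ r₀ K ρ' τ' κ' g ε₁ K' η rc Mc B M : ℝ} {s : ℂ → ℂ → ℂ} {m : ℕ}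
  {a : ℕ → ℤ} {r : ℕ → ℝ} {k : ℕ → ℂ → ℂ → ℂ}

/-- the difference between the full and the near integral -/
lemma far_lim (h1 : W1 ρ τ κ c C₀ ε₀ r₀ K s)
    (h2 : W2 ρ τ κ c C₀ ε₀ ρ' τ' κ' g ε₁ K' η s) (hS : KS ρ τ κ s k)
    (hr : ∀ i < m, r i = ρ) (hrm : r m = ρ')
    {Q zs : ℕ → ℂ → ℂ} (hcc : CC ρ τ κ ε₀ r₀ s a m 0 Q zs) :
    ∀ᶠ N : ℕ in atTop, ‖itI a N (m + 1) (Wr k (m + 1) N) 0 -
      itN r a N (m + 1) (Wr k (m + 1) N) 0‖ ≤ Real.exp (N * ((Q m 0).re - g / 2)) := by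
  have hρ := h1.hK.hρ
  have hτ := h1.hK.hτ
  have hκ := h1.hK.hκ
  have hρ' := h2.hK.hρ
  have hg0 := h2.hg0
  have hg1 := h2.hg1
  have hπ := Real.pi_gt_three
  have hhρ := h2.hρ
  obtain ⟨h₀, hh₀, hRf⟩ := rf_of_cc h1.hK.toPP hcc
  have hreal : ∀ j ≤ m, ∀ x : ℝ, |x| ≤ ρ → (Q j x).re ≤ (Q j 0).re := fun j hj =>
    h1.real (Q j) (hcc.an j hj) (hcc.ev j hj) (hcc.cl j hj)
  obtain ⟨D, hD, hfn⟩ := fn_ev h1.hK hS hcc hreal hh₀ hρ'.1 (by linarith)
  set ε : ℝ := g / (8 * (2 * m + 4)) with hε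
  have hm4 : (0 : ℝ) < 2 * m + 4 := by positivity
  have hε0 : 0 < ε := by positivity
  have hεm : (2 * m + 4) * ε = g / 8 := by rw [hε]; field_simp
  have hεκ : ε ≤ κ / 64 := by
    have h1 : 4 * ε ≤ (2 * m + 4) * ε :=
      mul_le_mul_of_nonneg_right (by linarith [Nat.cast_nonneg (α := ℝ) m]) hε0.le
    linarith
  filter_upwards [hfn ε hε0] with N a1
  obtain ⟨b1, b2, b3⟩ := a1
  have k1 := delta_near h1.hK hRf b1 hε0.le hεκ hcc.q0 b2 hρ'.1 (by linarith) hg1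
    h2.hg2 hr hrm b3
  rw [hεm] at k1
  exact k1.trans (exp_mono' (by linarith))

/-- bound of critical configurations -/
lemma rcrit_bd (hK : PP ρ τ c C₀ s) {n : ℕ} {z : ℕ → ℂ} (hz : RCrit s ρ τ n a z) :
    ∀ j < n, |(a j : ℝ)| * ‖z j‖ ≤ 2 * π * (1 + (8 * C₀ / τ ^ 2 + 1)) := by
  have hG := gh_s hK
  have hρ := hK.hρ
  have hτ := hK.hτ
  have hC0 := hK.hC
  obtain ⟨C, hCdef⟩ : ∃ C : ℝ, C = 8 * C₀ / τ ^ 2 + 1 := ⟨_, rfl⟩
  have hC : 0 < C := by have := hτ.1; rw [hCdef]; positivity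
  rw [← hCdef] at hG ⊢
  intro j hj
  have hz3 : ∀ j < n, z j ∈ Rc (3 * ρ) (3 * τ) := fun j hj =>
    Rc_mono (by linarith) (by linarith) (hz j hj).1
  have hz2 : ∀ j < n, z j ∈ Rc (2 * ρ) (2 * τ) := fun j hj =>
    Rc_mono (by linarith) (by linarith) (hz j hj).1
  have hz1 : ∀ j < n, ‖z j‖ ≤ 1 / 10 := fun j hj => (hz j hj).2.2.1
  obtain ⟨i, hi⟩ : ∃ i, i = (j + (n - 1)) % n := ⟨_, rfl⟩
  have hin : i < n := by rw [hi]; exact Nat.mod_lt _ (by omega)
  have hij : (i + 1) % n = j := by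
    rw [hi, Nat.mod_add_mod]
    have : j + (n - 1) + 1 = j + n := by omega
    rw [this, Nat.add_mod_right, Nat.mod_eq_of_lt hj]
  have h1 := (hz i hin).2.2.2
  rw [hij] at h1
  have hjn : (j + 1) % n < n := Nat.mod_lt _ (by omega)
  have k1 : ∀ u ∈ Rc (3 * ρ) (3 * τ), ‖deriv (fun v => s v u) (z j)‖ ≤ C / 2 := by
    intro u hu
    refine ((hG u hu).d1 hρ.1 hτ.1 (hz2 j hj)).trans ?_
    have := hz1 j hj
    nlinarith [norm_nonneg (z j)]
  have k2 : deriv (fun v => s (z i) v) (z j) = deriv (fun v => s v (z i)) (z j) := by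
    apply Filter.EventuallyEq.deriv_eq
    filter_upwards [(Pool.Agent.W85.HT.open_Rc (3 * ρ) (3 * τ)).mem_nhds (hz3 j hj)] with x hx
    exact hK.sym _ (hz3 i hin) x hx
  rw [k2] at h1
  have h2 : Complex.I * a j * z j / (2 * π) = -(Complex.I +
      deriv (fun v => s v (z i)) (z j) + deriv (fun v => s v (z ((j + 1) % n))) (z j)) := by
    linear_combination h1
  have h3 : ‖Complex.I * a j * z j / (2 * π)‖ ≤ 1 + C := by
    rw [h2, norm_neg]
    have n1 := norm_add_le (Complex.I + deriv (fun v => s v (z i)) (z j))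
      (deriv (fun v => s v (z ((j + 1) % n))) (z j))
    have n2 := norm_add_le Complex.I (deriv (fun v => s v (z i)) (z j))
    rw [Complex.norm_I] at n2
    have n3 := k1 _ (hz3 i hin)
    have n4 := k1 _ (hz3 _ hjn)
    linarith
  have h4 : ‖Complex.I * a j * z j / (2 * π)‖ = |(a j : ℝ)| * ‖z j‖ / (2 * π) := by
    rw [norm_div, norm_mul, norm_mul, Complex.norm_I, Complex.norm_intCast, one_mul, norm_mul,
      Complex.norm_real, Real.norm_eq_abs, abs_of_pos Real.pi_pos]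
    norm_num
  rw [h4, div_le_iff₀ (by positivity)] at h3
  linarith

/-- the main statement from the constants -/
theorem main_of (h1 : W1 ρ τ κ c C₀ ε₀ r₀ K s)
    (h2 : W2 ρ τ κ c C₀ ε₀ ρ' τ' κ' g ε₁ K' η s) (h3 : W3 ρ τ rc Mc B K K' η M s)
    (hS : KS ρ τ κ s k) (hm : 1 ≤ m) (ha : ∀ j < m + 1, M ≤ |(a j : ℝ)|) :
    ∃ z : ℕ → ℂ, RCrit s ρ τ (m + 1) a z ∧ 0 < (RVal s (m + 1) a z).re ∧
      Tendsto (fun N : ℕ => Real.log ‖itI a N (m + 1) (Wr k (m + 1) N) 0‖ / N) atTop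
        (𝓝 (RVal s (m + 1) a z).re) := by
  obtain ⟨r, hr⟩ : ∃ r : ℕ → ℝ, r = fun j => if j < m then ρ else ρ' := ⟨_, rfl⟩
  have hr1 : ∀ i < m, r i = ρ := fun i hi => by rw [hr]; simp [hi]
  have hrm : r m = ρ' := by rw [hr]; simp
  have hρ := h1.hK.hρ
  have hτ := h1.hK.hτ
  have hκ := h1.hK.hκ
  have hρ' := h2.hK.hρ
  have hτ' := h2.hK.hτ
  have hg0 := h2.hg0
  have hg1 := h2.hg1
  obtain ⟨z, V, hz, hV, hlow, hnear⟩ := near_lim h1 h2 h3 hS hm ha hr1 hrm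
  have h0' : (0 : ℂ) ∈ Rc (3 * ρ') (3 * τ') := zero_mem_Rc (by linarith) (by linarith)
  have h0 : (0 : ℂ) ∈ Rc (3 * ρ) (3 * τ) := zero_mem_Rc (by linarith) (by linarith)
  obtain ⟨Q, zs, hcc⟩ := h1.cc h2 h3 ha h0'
  have hfar := far_lim h1 h2 hS hr1 hrm hcc
  have hQV := hlow Q zs hcc
  have hQpos := cc_pos h1.hK hcc h0 le_rfl 0 h0
  refine ⟨z, hz, by rw [hV]; linarith, ?_⟩
  rw [hV]
  refine Pool.Agent.W85.HT.log_lim (M := fun N => itN r a N (m + 1) (Wr k (m + 1) N) 0)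
    (κ := g / 4) (C := 1) (by positivity) zero_le_one hnear ?_
  filter_upwards [hfar] with N hN
  rw [one_mul]
  exact hN.trans (exp_mono' (by linarith))

end

/-- RK: the growth rate of the ring, absolute constants -/
theorem rk : S_CPUG → S_CHVG → S_RK := by
  intro hCPU hCHV ρ τ κ c C₀ hρ hρ4 hτ hτρ hκ hκb hc hC₀
  obtain ⟨ε₀, K, hε0, hε1, hK0, hcpu0⟩ := hCPU ρ τ κ c C₀ (1 / 10) hρ hρ4 hτ hτρ hκ hc hC₀
    (by norm_num)
  obtain ⟨C, hCdef⟩ : ∃ C : ℝ, C = 8 * C₀ / τ ^ 2 + 1 := ⟨_, rfl⟩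
  have hC : 0 < C := by rw [hCdef]; positivity
  have hπ := Real.pi_gt_three
  -- the second window
  obtain ⟨ρ', hρ'def⟩ : ∃ ρ' : ℝ, ρ' = min (ρ / 2) (ε₀ / (72 * C)) := ⟨_, rfl⟩
  have hρ' : 0 < ρ' := by rw [hρ'def]; positivity
  have hρ'a : ρ' ≤ ρ / 2 := by rw [hρ'def]; exact min_le_left _ _
  have hρ'b : ρ' ≤ ε₀ / (72 * C) := by rw [hρ'def]; exact min_le_right _ _
  obtain ⟨τ', hτ'def⟩ : ∃ τ' : ℝ, τ' = min ρ' (τ / 2) := ⟨_, rfl⟩
  have hτ' : 0 < τ' := by rw [hτ'def]; positivity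
  have hτ'a : τ' ≤ τ / 2 := by rw [hτ'def]; exact min_le_right _ _
  have hτ'b : τ' ≤ ρ' := by rw [hτ'def]; exact min_le_left _ _
  obtain ⟨g, hg⟩ : ∃ g : ℝ, g = min (κ / 2) (c / 2 * ρ' ^ 2) := ⟨_, rfl⟩
  have hg0 : 0 < g := by
    rw [hg]
    exact lt_min (by linarith) (by positivity)
  have hg1 : g ≤ κ / 2 := by rw [hg]; exact min_le_left _ _
  have hg2 : g ≤ c / 2 * ρ' ^ 2 := by rw [hg]; exact min_le_right _ _
  obtain ⟨ε₁, Ku, hε₁, -, hKu, hcpu1⟩ := hCPU ρ' τ' g c C₀ (1 / 10) hρ' (by linarith) hτ' hτ'b hg0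
    hc hC₀ (by norm_num)
  obtain ⟨η, hη⟩ : ∃ η : ℝ, η = min τ (ε₁ * τ / (2 * C)) := ⟨_, rfl⟩
  have hη0 : 0 < η := by rw [hη]; positivity
  have hη1 : η ≤ τ := by rw [hη]; exact min_le_left _ _
  have hη2 : η ≤ ε₁ * τ / (2 * C) := by rw [hη]; exact min_le_right _ _
  obtain ⟨rc, Mc, hrc, hrcτ, hMc, hchv⟩ := hCHV ρ τ c C₀ hρ hρ4 hτ hτρ hc hC₀
  obtain ⟨B, hB⟩ : ∃ B : ℝ, B = 2 * π * (1 + 2 * C) := ⟨_, rfl⟩
  have hB0 : 0 < B := by rw [hB]; positivity
  obtain ⟨M, hMdef⟩ : ∃ M : ℝ, M = 1 + Mc + K + Ku + B / rc + 2 * B / η := ⟨_, rfl⟩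
  have t1 : 0 < B / rc := by positivity
  have t2 : 0 < 2 * B / η := by positivity
  have hM0 : 0 < M := by linarith
  refine ⟨M, B, hM0, hB0, fun s k hP hV hS n hn a ha => ?_⟩
  have hK : PK ρ τ κ c C₀ s := { toPP := hP, toPV := hV }
  obtain ⟨hreal, hcpu⟩ := hcpu0 s hP
  have hW1 : W1 ρ τ κ c C₀ ε₀ (1 / 10) K s :=
    { hK := hK
      hε₀ := hε0
      hr₀ := le_rfl
      hK0 := hK0
      cpu := by
        intro F f1 f2 f3 b hb
        have k1 : K ^ 2 ≤ ((1 + 1 : ℕ) : ℝ) ^ 2 + (b : ℝ) ^ 2 := by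
          have := pow_le_pow_left₀ hK0.le hb 2
          rw [sq_abs] at this
          have h0 : (0 : ℝ) ≤ ((1 + 1 : ℕ) : ℝ) ^ 2 := by positivity
          linarith
        exact (hcpu 1 F f1 f2 (by
          intro ψ hψ
          have := f3 ψ hψ
          simpa using this) b).1 k1
      real := by
        intro F f1 f2 f3 x hx
        have k1 := hreal 1 F le_rfl f1 f2 (by
          intro ψ hψ
          have := f3 ψ hψ
          simpa using this) x hx
        have : 0 ≤ c / 4 * x ^ 2 := by positivity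
        linarith }
  have hP' : PP ρ' τ' c C₀ s := hP.mono hρ' (by linarith) hτ' (by linarith) hτ'b
  have hsmallR : Rc (3 * ρ') (3 * τ') ⊆ Rc (2 * ρ) (2 * τ) := Rc_mono (by linarith) (by linarith)
  have hR23 : Rc (2 * ρ) (2 * τ) ⊆ Rc (3 * ρ) (3 * τ) := Rc_mono (by linarith) (by linarith)
  have hW2 : W2 ρ τ κ c C₀ ε₀ ρ' τ' g g ε₁ Ku η s :=
    { hK := hP'
      hρ := hρ'a
      hτ := hτ'a
      cl := by
        intro p hp ψ hψ
        have hpR := hsmallR hp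
        have m0 : (0 : ℂ) ∈ Rc (3 * ρ) (3 * τ) := zero_mem_Rc (by linarith) (by linarith)
        have h1 := pp_small hP hpR hψ
        have h2 := pp_small hP hpR m0
        rw [← hCdef] at h1 h2
        have hpn : ‖p‖ ≤ 6 * ρ' := by
          have := Complex.norm_le_abs_re_add_abs_im p
          linarith [hp.1, hp.2]
        have h3 : C * ‖p‖ ^ 2 ≤ ε₀ / 2 := by
          have k1 : ‖p‖ ^ 2 ≤ 36 * ρ' := by
            have := pow_le_pow_left₀ (norm_nonneg p) hpn 2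
            have k2 : (6 * ρ') ^ 2 = 36 * (ρ' * ρ') := by ring
            have k3 : ρ' * ρ' ≤ ρ' := mul_le_of_le_one_left hρ'.le (by linarith)
            linarith
          rw [le_div_iff₀ (by positivity)] at hρ'b
          have := mul_le_mul_of_nonneg_left k1 hC.le
          linarith
        have e : s p ψ - s p 0 - (s 0 ψ - s 0 0) = (s p ψ - s 0 ψ) - (s p 0 - s 0 0) := by ring
        rw [e]
        refine (norm_sub_le _ _).trans ?_
        linarith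
      hg0 := hg0
      hg1 := hg1
      hg2 := hg2
      hκg := le_rfl
      hε₁ := hε₁
      hK' := hKu
      cpu := by
        intro F f1 f2 f3 b hb
        have k1 : Ku ^ 2 ≤ ((2 : ℕ) : ℝ) ^ 2 + (b : ℝ) ^ 2 := by
          have := pow_le_pow_left₀ hKu.le hb 2
          rw [sq_abs] at this
          have h0 : (0 : ℝ) ≤ ((2 : ℕ) : ℝ) ^ 2 := by positivity
          linarith
        exact ((hcpu1 s hP').2 2 F f1 f2 f3 b).2 (by norm_num) k1
      hη := hη0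
      der := by
        intro z hz w hw
        have hz2 : z ∈ Rc (2 * ρ) (2 * τ) := by
          have h1 := Complex.abs_re_le_norm z
          have h2 := Complex.abs_im_le_norm z
          exact ⟨by linarith, by linarith⟩
        have h1 := pp_der hP hz2 (hsmallR hw)
        rw [← hCdef] at h1
        refine h1.trans ?_
        have h2 : ‖z‖ ^ 2 ≤ η := by
          have k1 : ‖z‖ * ‖z‖ ≤ η * 1 := mul_le_mul hz.le (by linarith) (norm_nonneg _) hη0.le
          rw [sq]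
          linarith
        rw [div_le_iff₀ (by positivity)]
        rw [le_div_iff₀ (by positivity)] at hη2
        have := mul_le_mul_of_nonneg_left h2 hC.le
        linarith }
  have hW3 : W3 ρ τ rc Mc B K Ku η M s :=
    { hrc := hrc
      chv := hchv s hP
      bd := by
        intro m a z w hw hz hch
        have h1 := zn_bd hP m a z w hw hz hch
        rw [← hCdef, ← hB] at h1
        exact h1
      hM := hM0
      h1 := by linarith
      h2 := by linarith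
      h3 := by linarith
      h4 := by
        rw [div_le_iff₀ hM0, ← div_le_iff₀' hrc]
        linarith
      h5 := by
        rw [div_lt_iff₀ hM0]
        have : 2 * B / η ≤ M := by linarith
        rw [div_le_iff₀ hη0] at this
        linarith
      hB := hB0 }
  obtain ⟨m, rfl⟩ : ∃ m, n = m + 1 := ⟨n - 1, by omega⟩
  obtain ⟨z, hz1, hz2, hz3⟩ := main_of hW1 hW2 hW3 hS (by omega) ha
  refine ⟨z, hz1, fun j hj => ?_, hz2, hz3⟩
  have h1 := rcrit_bd hP hz1 j hj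
  rw [← hCdef] at h1
  refine h1.trans ?_
  rw [hB]
  have : 2 * π * (1 + C) ≤ 2 * π * (1 + 2 * C) := by gcongr; linarith
  exact this

end Pool.Agent.Y481.X
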