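import Pool.Agent.Y481.X.Chain
import Pool.Agent.Y481.Rec

/-!
# Upper bounds of the chains relative to the reference chain, general kernels
-/

set_option autoImplicit false

namespace Pool.Agent.Y481.X

open Finset Filter Topology Metric MeasureTheory
open Pool.Agent.W711.HT
open Pool.Agent.Y481
open Pool.Agent.TH563.UV (CPu)
open Pool.Agent.W85.HT (Kc Kc_mem Kc_compact Rc_mono xy_re xy_im)
open scoped Real

/-! ### Separable kernels -/

/-- separable kernels -/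
def SepK (kk : ℂ → ℂ → ℂ) : Prop := ∃ (n : ℕ) (A B : ℕ → ℂ → ℂ),
  (∀ d, Differentiable ℂ (A d) ∧ Differentiable ℂ (B d)) ∧
    ∀ ψ ψ' : ℂ, kk ψ ψ' = ∑ d ∈ range n, A d ψ * B d ψ'

lemma SepK.d2 {kk : ℂ → ℂ → ℂ} (h : SepK kk) (p : ℂ) : Differentiable ℂ (fun v => kk p v) := by
  obtain ⟨n, A, B, h1, h2⟩ := h
  have : (fun v => kk p v) = fun v => ∑ d ∈ range n, A d p * B d v := by
    funext v
    exact h2 p v
  rw [this]
  exact Differentiable.fun_sum fun d _ => (differentiable_const _).mul (h1 d).2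

lemma SepK.d1 {kk : ℂ → ℂ → ℂ} (h : SepK kk) (p : ℂ) : Differentiable ℂ (fun v => kk v p) := by
  obtain ⟨n, A, B, h1, h2⟩ := h
  have : (fun v => kk v p) = fun v => ∑ d ∈ range n, A d v * B d p := by
    funext v
    exact h2 v p
  rw [this]
  exact Differentiable.fun_sum fun d _ => (h1 d).1.mul (differentiable_const _)

/-! ### Nested chains -/

/-- the integral over the variables of a chain which starts at `p` -/
noncomputable def chX (Λ : ℕ → (ℂ → ℂ) → ℂ) (kk : ℂ → ℂ → ℂ) (p : ℂ) : ℕ → ℂ → ℂ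
  | 0 => fun v => kk p v
  | j + 1 => fun v => Λ j fun w => chX Λ kk p j w * kk w v

lemma chX_diff {Λ : ℕ → (ℂ → ℂ) → ℂ} (hΛ : ∀ j, Sep.Lin (Λ j)) {kk : ℂ → ℂ → ℂ} (hk : SepK kk)
    (p : ℂ) (j : ℕ) : Differentiable ℂ (chX Λ kk p j) := by
  induction j with
  | zero => exact hk.d2 p
  | succ j ih =>
    obtain ⟨n, A, B, h1, h2⟩ := hk
    have h3 : chX Λ kk p (j + 1) = fun v => ∑ d ∈ range n, B d v *
        Λ j (fun w => chX Λ kk p j w * A d w) := by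
      funext v
      rw [← hΛ j ℕ (range n) (fun d => B d v) (fun d w => chX Λ kk p j w * A d w)
        (fun d => ih.fun_mul (h1 d).1)]
      show Λ j (fun w => chX Λ kk p j w * kk w v) = _
      congr 1
      funext w
      rw [h2, mul_sum]
      exact sum_congr rfl fun d _ => by ring
    rw [h3]
    exact Differentiable.fun_sum fun d _ => (h1 d).2.mul (differentiable_const _)

/-- the product of the kernels of the ring -/
noncomputable def Wd (kk : ℂ → ℂ → ℂ) (n : ℕ) (ψ : ℕ → ℂ) : ℂ :=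
  ∏ j ∈ range n, kk (ψ j) (ψ ((j + 1) % n))

lemma Wd_sep {n : ℕ} (hn : 1 ≤ n) {kk : ℂ → ℂ → ℂ} (hk : SepK kk) : Sep n (Wd kk n) := by
  obtain ⟨k, A, B, h1, h2⟩ := hk
  unfold Wd
  refine Sep.prod _ fun j hj => ?_
  have e : (fun ψ : ℕ → ℂ => kk (ψ j) (ψ ((j + 1) % n))) = fun ψ : ℕ → ℂ =>
      ∑ d ∈ range k, A d (ψ j) * B d (ψ ((j + 1) % n)) := by
    funext ψ
    exact h2 _ _
  rw [e]
  refine Sep.sum _ fun d _ => ?_
  exact (Sep.var (mem_range.1 hj) (h1 d).1).mul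
    (Sep.var (Nat.mod_lt _ (by omega)) (h1 d).2)

lemma itG_Wd {Λ : ℕ → (ℂ → ℂ) → ℂ} (hΛ : ∀ j, Sep.Lin (Λ j)) {kk : ℂ → ℂ → ℂ} (hk : SepK kk)
    (m : ℕ) {j : ℕ} (hj : j ≤ m) (ψ : ℕ → ℂ) : itG Λ j (Wd kk (m + 1)) ψ =
      chX Λ kk (ψ m) j (ψ j) * ∏ i ∈ Ico j m, kk (ψ i) (ψ (i + 1)) := by
  induction j generalizing ψ with
  | zero =>
    show Wd kk (m + 1) ψ = kk (ψ m) (ψ 0) * _
    unfold Wd
    rw [prod_range_succ, Nat.mod_self, mul_comm, Nat.Ico_zero_eq_range]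
    congr 1
    refine prod_congr rfl fun i hi => ?_
    rw [mem_range] at hi
    rw [Nat.mod_eq_of_lt (by omega)]
  | succ j ih =>
    have hjm : j < m := by omega
    show Λ j (fun w => itG Λ j (Wd kk (m + 1)) (Function.update ψ j w)) =
      Λ j (fun w => chX Λ kk (ψ m) j w * kk w (ψ (j + 1))) * _
    rw [← lin_mul (hΛ j) ((chX_diff hΛ hk (ψ m) j).fun_mul (hk.d1 (ψ (j + 1))))]
    congr 1
    funext w
    rw [ih (by omega), Function.update_self, Function.update_of_ne (by omega),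
      Finset.prod_eq_prod_Ico_succ_bot hjm, Function.update_self,
      Function.update_of_ne (by omega)]
    have e1 : ∏ i ∈ Ico (j + 1) m, kk (Function.update ψ j w i)
        (Function.update ψ j w (i + 1)) = ∏ i ∈ Ico (j + 1) m, kk (ψ i) (ψ (i + 1)) := by
      refine prod_congr rfl fun i hi => ?_
      rw [mem_Ico] at hi
      rw [Function.update_of_ne (by omega), Function.update_of_ne (by omega)]
    rw [e1]
    ring

lemma itG_Wd_last {Λ : ℕ → (ℂ → ℂ) → ℂ} (hΛ : ∀ j, Sep.Lin (Λ j)) {kk : ℂ → ℂ → ℂ}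
    (hk : SepK kk) (m : ℕ) (ψ : ℕ → ℂ) :
    itG Λ (m + 1) (Wd kk (m + 1)) ψ = Λ m fun w => chX Λ kk w m w := by
  show Λ m (fun w => itG Λ m (Wd kk (m + 1)) (Function.update ψ m w)) = _
  congr 1
  funext w
  rw [itG_Wd hΛ hk m le_rfl, Function.update_self, Ico_self, prod_empty, mul_one]

lemma chX_diag_diff {Λ : ℕ → (ℂ → ℂ) → ℂ} (hΛ : ∀ j, Sep.Lin (Λ j)) {kk : ℂ → ℂ → ℂ}
    (hk : SepK kk) (m : ℕ) : Differentiable ℂ (fun w => chX Λ kk w m w) := by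
  have h1 := (itG_sep hΛ (Wd_sep (show 1 ≤ m + 1 by omega) hk) (show m ≤ m + 1 by omega)).diff 0 m
  have e : (fun w => chX Λ kk w m w) =
      fun w => itG Λ m (Wd kk (m + 1)) (Function.update 0 m w) := by
    funext w
    rw [itG_Wd hΛ hk m le_rfl, Function.update_self, Ico_self, prod_empty, mul_one]
  rw [e]
  exact h1

/-! ### The facts for one value of `N` -/

/-- the facts used for one value of `N` -/
structure FN (ρ τ κ ε D h₀ : ℝ) (s : ℂ → ℂ → ℂ) (a : ℕ → ℤ) (m : ℕ) (Q : ℕ → ℂ → ℂ)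
    (kk : ℂ → ℂ → ℂ) (N : ℕ) : Prop where
  hN : 1 ≤ N
  sep : SepK kk
  near : ∀ ψ ∈ Rc (3 * ρ) (3 * τ), ∀ ψ' ∈ Rc (3 * ρ) (3 * τ),
      ‖kk ψ ψ'‖ ≤ Real.exp (N * ((s ψ ψ').re + ε))
  far : ∀ ψ : ℂ, ρ ≤ |ψ.re| → |ψ.re| ≤ π → |ψ.im| ≤ 1 / N →
    ∀ ψ' ∈ Rc (3 * ρ) (3 * τ), ‖kk ψ ψ'‖ ≤ Real.exp (N * ((s 0 ψ').re - κ)) ∧
      ‖kk ψ' ψ‖ ≤ Real.exp (N * ((s 0 ψ').re - κ))
  farg : ∀ ψ ψ' : ℂ, |ψ.re| ≤ π → ρ ≤ |ψ'.re| → |ψ'.re| ≤ π →
    |ψ.im| ≤ 1 / N → |ψ'.im| ≤ 1 / N → ‖kk ψ ψ'‖ ≤ Real.exp (N * (2 * bet - 5 / 4 * κ)) ∧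
      ‖kk ψ' ψ‖ ≤ Real.exp (N * (2 * bet - 5 / 4 * κ))
  farb : ∀ ψ ψ' : ℂ, ρ ≤ |ψ.re| → |ψ.re| ≤ π → ρ ≤ |ψ'.re| →
    |ψ'.re| ≤ π → |ψ.im| ≤ 1 / N → |ψ'.im| ≤ 1 / N →
      ‖kk ψ ψ'‖ ≤ Real.exp (N * (2 * bet - 2 * κ))
  real : ∀ j ≤ m, ∀ v : ℂ, |v.re| ≤ ρ → |v.im| ≤ 1 / N → (Q j v).re ≤ (Q j 0).re + ε
  in1 : 1 / (N : ℝ) < τ
  up : ∀ j ≤ m, ∀ (f : ℂ → ℂ) (B : ℝ), Continuous f →
    ((∀ x y : ℝ, ρ ≤ |x| → |x| ≤ π → |y| ≤ 1 / N → ‖f (x + y * Complex.I)‖ ≤ B) →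
      ‖LI (a j) N f - LN ρ (a j) N f‖ ≤ D * B) ∧
    ((∀ x y : ℝ, |x| ≤ ρ → |y| ≤ 1 / N → ‖f (x + y * Complex.I)‖ ≤ B) →
      ‖LN ρ (a j) N f‖ ≤ D * B)
  ub : ∀ (b : ℤ) (Y G : ℂ → ℂ) (z : ℂ) (β : ℝ),
      DifferentiableOn ℂ Y (Rc (2 * ρ) (2 * τ)) → z ∈ Rc ρ τ → h₀ ≤ z.im → SAD b G ρ z →
      (∀ ψ ∈ Rc (2 * ρ) (2 * τ), ‖Y ψ‖ ≤ Real.exp (N * (β + (G ψ).re))) →
      ‖LN ρ b N Y‖ ≤ D * Real.exp (N * (β + (qq b G z).re))
  D0 : 0 ≤ D
  D2 : 2 * D ≤ Real.exp (N * ε)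

section

variable {ρ τ κ c C₀ ε₀ r₀ ε D h₀ : ℝ} {s : ℂ → ℂ → ℂ} {m : ℕ} {a : ℕ → ℤ} {N : ℕ}
  {Q zs : ℕ → ℂ → ℂ} {kk : ℂ → ℂ → ℂ}

/-- upper bounds of the full chain -/
def HJ (ρ τ κ : ℝ) (Q : ℕ → ℂ → ℂ) (N : ℕ) (β : ℝ) (j : ℕ) (X : ℂ → ℂ) : Prop :=
  (∀ v ∈ Rc (2 * ρ) (2 * τ),
    ‖X v‖ ≤ Real.exp (N * (β + (Q j v).re))) ∧
  ∀ v : ℂ, ρ ≤ |v.re| → |v.re| ≤ π → |v.im| ≤ 1 / N →
    ‖X v‖ ≤ Real.exp (N * (β + (Q j 0).re - κ / 2))

/-- far part of one integration, for a near value of the next variable -/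
lemma far_near (hK : PK ρ τ κ c C₀ s)
    (hR : Rf ρ τ κ h₀ s a m Q zs) (hF : FN ρ τ κ ε D h₀ s a m Q kk N) {β : ℝ} {j : ℕ} (hj : j < m) {X : ℂ → ℂ} (hX : Differentiable ℂ X)
    (hH : HJ ρ τ κ Q N β j X) {v : ℂ} (hv : v ∈ Rc (2 * ρ) (2 * τ)) :
    ‖LI (a j) N (fun w => X w * kk w v) - LN ρ (a j) N (fun w => X w * kk w v)‖ ≤
      D * Real.exp (N * (β + (Q (j + 1) v).re - κ)) := by
  have hρ := hK.hρ
  have hτ := hK.hτ
  have hκ := hK.hκ
  have hv3 : v ∈ Rc (3 * ρ) (3 * τ) := Rc_mono (by linarith) (by linarith) hv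
  refine (hF.up j hj.le _ _ (hX.fun_mul (hF.sep.d1 v)).continuous).1 fun x y h1 h2 h3 => ?_
  have k1 := hH.2 (x + y * Complex.I) (by rwa [xy_re]) (by rwa [xy_re]) (by rwa [xy_im])
  have k2 := (hF.far (x + y * Complex.I) (by rwa [xy_re]) (by rwa [xy_re]) (by rwa [xy_im])
    v hv3).1
  rw [norm_mul]
  refine (mul_le_mul k1 k2 (norm_nonneg _) (Real.exp_pos _).le).trans ?_
  rw [← Real.exp_add, ← mul_add]
  apply exp_mono'
  have k3 := (Complex.abs_re_le_norm _).trans (hR.st j hj v hv3).1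
  rw [Complex.sub_re, Complex.sub_re] at k3
  linarith [(abs_le.1 k3).1]

/-- near part of one integration, for a near value of the next variable -/
lemma near_near (hK : PK ρ τ κ c C₀ s)
    (hR : Rf ρ τ κ h₀ s a m Q zs) (hF : FN ρ τ κ ε D h₀ s a m Q kk N) {β : ℝ} {j : ℕ} (hj : j < m) {X : ℂ → ℂ} (hX : Differentiable ℂ X)
    (hH : ∀ v ∈ Rc (2 * ρ) (2 * τ),
      ‖X v‖ ≤ Real.exp (N * (β + (Q j v).re)))
    {v : ℂ} (hv : v ∈ Rc (2 * ρ) (2 * τ)) :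
    ‖LN ρ (a j) N (fun w => X w * kk w v)‖ ≤
      D * Real.exp (N * (β + ε + (Q (j + 1) v).re)) := by
  have hρ := hK.hρ
  have hτ := hK.hτ
  have hv3 : v ∈ Rc (3 * ρ) (3 * τ) := Rc_mono (by linarith) (by linarith) hv
  obtain ⟨-, k1, k2, k3⟩ := hR.st j hj v hv3
  have h1 := hF.ub (a j) (fun w => X w * kk w v) (fun w => Q j w + s w v) (zs j v)
    (β + ε) (hX.fun_mul (hF.sep.d1 v)).differentiableOn k1
    (hR.h₀ j hj v hv) k2 (by
      intro w hw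
      have hw3 : w ∈ Rc (3 * ρ) (3 * τ) := Rc_mono (by linarith) (by linarith) hw
      rw [norm_mul]
      refine (mul_le_mul (hH w hw) (hF.near w hw3 v hv3) (norm_nonneg _)
        (Real.exp_pos _).le).trans ?_
      rw [← Real.exp_add, ← mul_add]
      apply exp_mono'
      rw [Complex.add_re]
      linarith)
  refine h1.trans (mul_le_mul_of_nonneg_left (exp_mono' ?_) hF.D0)
  have e : qq (a j) (fun w => Q j w + s w v) (zs j v) = Q (j + 1) v := by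
    rw [k3]
    unfold qq
    ring
  rw [e]

/-- the induction step for the full chain -/
lemma HJ_succ (hK : PK ρ τ κ c C₀ s)
    (hR : Rf ρ τ κ h₀ s a m Q zs) (hF : FN ρ τ κ ε D h₀ s a m Q kk N) (hε : 0 ≤ ε)
    (hεκ : ε ≤ κ / 64) {β : ℝ} {j : ℕ} (hj : j < m) {X : ℂ → ℂ} (hX : Differentiable ℂ X)
    (hH : HJ ρ τ κ Q N β j X) :
    HJ ρ τ κ Q N (β + 2 * ε) (j + 1) (fun v => LI (a j) N fun w => X w * kk w v) := by
  have hρ := hK.hρ
  have hτ := hK.hτ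
  have hκ := hK.hκ
  refine ⟨fun v hv => ?_, fun v h1 h2 h3 => ?_⟩
  · have h1 := far_near hK hR hF hj hX hH hv
    have h2 := near_near hK hR hF hj hX hH.1 hv
    have h3 := norm_add_le (LI (a j) N (fun w => X w * kk w v) -
      LN ρ (a j) N (fun w => X w * kk w v)) (LN ρ (a j) N (fun w => X w * kk w v))
    rw [sub_add_cancel] at h3
    refine h3.trans ?_
    refine two_sum hF.D2 (R := β + ε + (Q (j + 1) v).re)
      (h1.trans (mul_le_mul_of_nonneg_left (exp_mono' (by linarith)) hF.D0)) h2 (by linarith)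
  · have m0 : (0 : ℂ) ∈ Rc (3 * ρ) (3 * τ) := zero_mem_Rc (by linarith) (by linarith)
    have k3 := (Complex.abs_re_le_norm _).trans (hR.st j hj 0 m0).1
    rw [Complex.sub_re, Complex.sub_re] at k3
    have k3' := (abs_le.1 k3).1
    have hz := abs_le.1 hK.zero
    obtain ⟨hz1, hz2⟩ := hz
    have hc : Continuous (fun w => X w * kk w v) := (hX.fun_mul (hF.sep.d1 v)).continuous
    have p1 : ‖LI (a j) N (fun w => X w * kk w v) -
        LN ρ (a j) N (fun w => X w * kk w v)‖ ≤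
        D * Real.exp (N * (β + (Q (j + 1) 0).re - κ)) := by
      refine (hF.up j hj.le _ _ hc).1 fun x y g1 g2 g3 => ?_
      rw [norm_mul]
      refine (mul_le_mul (hH.2 (x + y * Complex.I) (by rwa [xy_re]) (by rwa [xy_re])
        (by rwa [xy_im])) (hF.farb (x + y * Complex.I) v (by rwa [xy_re]) (by rwa [xy_re]) h1 h2
        (by rwa [xy_im]) h3) (norm_nonneg _) (Real.exp_pos _).le).trans ?_
      rw [← Real.exp_add, ← mul_add]
      exact exp_mono' (by linarith)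
    have p2 : ‖LN ρ (a j) N (fun w => X w * kk w v)‖ ≤
        D * Real.exp (N * (β + (Q (j + 1) 0).re - κ)) := by
      refine (hF.up j hj.le _ _ hc).2 fun x y g1 g2 => ?_
      have hw2 : (x : ℂ) + y * Complex.I ∈ Rc (2 * ρ) (2 * τ) := by
        have := hF.in1
        refine ⟨?_, ?_⟩
        · rw [xy_re]; linarith
        · rw [xy_im]; linarith
      have hw3 : (x : ℂ) + y * Complex.I ∈ Rc (3 * ρ) (3 * τ) :=
        Rc_mono (by linarith) (by linarith) hw2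
      have g4 := hF.real j hj.le (x + y * Complex.I) (by rwa [xy_re]) (by rwa [xy_im])
      rw [norm_mul]
      refine (mul_le_mul (hH.1 _ hw2) (hF.farg (x + y * Complex.I) v
        (by rw [xy_re]; linarith [Real.pi_gt_three]) h1 h2
        (by rwa [xy_im]) h3).1 (norm_nonneg _) (Real.exp_pos _).le).trans ?_
      rw [← Real.exp_add, ← mul_add]
      refine exp_mono' ?_
      linarith
    have h3 := norm_add_le (LI (a j) N (fun w => X w * kk w v) -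
      LN ρ (a j) N (fun w => X w * kk w v)) (LN ρ (a j) N (fun w => X w * kk w v))
    rw [sub_add_cancel] at h3
    refine h3.trans ?_
    exact two_sum hF.D2 p1 p2 (by linarith)

/-- the bounds of the full chain -/
theorem HJ_all (hK : PK ρ τ κ c C₀ s)
    (hR : Rf ρ τ κ h₀ s a m Q zs) (hF : FN ρ τ κ ε D h₀ s a m Q kk N) (hε : 0 ≤ ε)
    (hεκ : ε ≤ κ / 64) {β : ℝ} {p : ℂ}
    (h0 : HJ ρ τ κ Q N β 0 (fun v => kk p v)) {j : ℕ} (hj : j ≤ m) :
    HJ ρ τ κ Q N (β + 2 * j * ε) j (chX (fun j => LI (a j) N) kk p j) := by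
  induction j with
  | zero =>
    have : β + 2 * ((0 : ℕ) : ℝ) * ε = β := by push_cast; ring
    rw [this]
    exact h0
  | succ j ih =>
    have h1 := HJ_succ hK hR hF hε hεκ (by omega)
      (chX_diff (fun j => LI_lin (a j) hF.hN) hF.sep p j) (ih (by omega))
    have : β + 2 * ((j + 1 : ℕ) : ℝ) * ε = β + 2 * (j : ℝ) * ε + 2 * ε := by push_cast; ring
    rw [this]
    exact h1

/-- the difference between the full chain and the near chain -/
theorem DJ_all (hK : PK ρ τ κ c C₀ s)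
    (hR : Rf ρ τ κ h₀ s a m Q zs) (hF : FN ρ τ κ ε D h₀ s a m Q kk N) (hε : 0 ≤ ε)
    (hεκ : ε ≤ κ / 64) {β : ℝ} {p : ℂ}
    (h0 : HJ ρ τ κ Q N β 0 (fun v => kk p v)) {j : ℕ} (hj : j ≤ m) :
    ∀ v ∈ Rc (2 * ρ) (2 * τ), ‖chX (fun j => LI (a j) N) kk p j v -
      chX (fun j => LN ρ (a j) N) kk p j v‖ ≤
        Real.exp (N * ((β - κ / 2 + 2 * j * ε) + (Q j v).re)) := by
  have hκ := hK.hκ
  induction j with
  | zero =>
    intro v hv
    show ‖kk p v - kk p v‖ ≤ _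
    rw [sub_self, norm_zero]
    positivity
  | succ j ih =>
    intro v hv
    have ih := ih (by omega)
    have hjm : j < m := by omega
    have hHj := HJ_all hK hR hF hε hεκ h0 (show j ≤ m by omega)
    have d1 := chX_diff (fun j => LI_lin (a j) hF.hN) hF.sep p j
    have d2 := chX_diff (fun j => LN_lin ρ (a j) hF.hN) hF.sep p j
    have h1 := far_near hK hR hF hjm d1 hHj hv
    have h2 := near_near hK hR hF hjm (d1.sub d2) (by
      intro w hw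
      exact ih w hw) hv
    have e1 : LN ρ (a j) N (fun w => chX (fun j => LI (a j) N) kk p j w * kk w v) -
        LN ρ (a j) N (fun w => chX (fun j => LN ρ (a j) N) kk p j w * kk w v) =
        LN ρ (a j) N (fun w => (chX (fun j => LI (a j) N) kk p j -
          chX (fun j => LN ρ (a j) N) kk p j) w * kk w v) := by
      rw [LN_sub ρ (a j) hF.hN (d1.fun_mul (hF.sep.d1 v)) (d2.fun_mul (hF.sep.d1 v))]
      congr 1
      funext w
      simp only [Pi.sub_apply]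
      ring
    have e2 : chX (fun j => LI (a j) N) kk p (j + 1) v -
        chX (fun j => LN ρ (a j) N) kk p (j + 1) v =
        (LI (a j) N (fun w => chX (fun j => LI (a j) N) kk p j w * kk w v) -
          LN ρ (a j) N (fun w => chX (fun j => LI (a j) N) kk p j w * kk w v)) +
        LN ρ (a j) N (fun w => (chX (fun j => LI (a j) N) kk p j -
          chX (fun j => LN ρ (a j) N) kk p j) w * kk w v) := by
      rw [← e1]
      show LI (a j) N (fun w => chX (fun j => LI (a j) N) kk p j w * kk w v) -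
        LN ρ (a j) N (fun w => chX (fun j => LN ρ (a j) N) kk p j w * kk w v) = _
      ring
    rw [e2]
    refine (norm_add_le _ _).trans ?_
    refine two_sum hF.D2
      (R := (β - κ / 2 + 2 * j * ε) + ε + (Q (j + 1) v).re)
      (h1.trans (mul_le_mul_of_nonneg_left (exp_mono' ?_) hF.D0)) h2 ?_
    · linarith
    · push_cast
      linarith

end

end Pool.Agent.Y481.X
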