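import Pool.Agent.Y481.X.Rec
import Pool.Agent.Y481.Rec2

/-!
# Upper bounds for the ring, general kernels
-/

set_option autoImplicit false

namespace Pool.Agent.Y481.X

open Finset Filter Topology Metric MeasureTheory
open Pool.Agent.W711.HT
open Pool.Agent.Y481
open Pool.Agent.W85.HT (Kc Kc_mem Kc_compact Rc_mono xy_re xy_im)
open scoped Real

section

variable {ρ τ κ c C₀ ε₀ r₀ ε D h₀ : ℝ} {s : ℂ → ℂ → ℂ} {m : ℕ} {a : ℕ → ℤ} {N : ℕ}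
  {Q zs : ℕ → ℂ → ℂ} {kk : ℂ → ℂ → ℂ}

lemma real_mem (hK : PK ρ τ κ c C₀ s) (hF : FN ρ τ κ ε D h₀ s a m Q kk N) {p : ℂ}
    (h1 : |p.re| ≤ ρ) (h2 : |p.im| ≤ 1 / N) : p ∈ Rc (2 * ρ) (2 * τ) := by
  have := hF.in1
  have hρ := hK.hρ.1
  have hτ := hK.hτ.1
  exact ⟨by linarith, by linarith⟩

/-- the start for a near value of `p` -/
lemma start_near (hK : PK ρ τ κ c C₀ s)
    (hF : FN ρ τ κ ε D h₀ s a m Q kk N) (hε : 0 ≤ ε) (hQ0 : Q 0 = fun v => s 0 v)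
    (hcvx : ∀ p : ℂ, |p.re| ≤ ρ → |p.im| ≤ 1 / N → ∀ v ∈ Rc (2 * ρ) (2 * τ),
      (s p v).re ≤ (s 0 v).re - c / 2 * p.re ^ 2 + ε) {p : ℂ}
    (h1 : |p.re| ≤ ρ) (h2 : |p.im| ≤ 1 / N) :
    HJ ρ τ κ Q N (-(c / 2 * p.re ^ 2) + 2 * ε) 0 (fun v => kk p v) := by
  have hρ := hK.hρ
  have hτ := hK.hτ
  have hκ := hK.hκ
  have hp2 := real_mem hK hF h1 h2
  have hp3 : p ∈ Rc (3 * ρ) (3 * τ) := Rc_mono (by linarith) (by linarith) hp2
  have m0 : (0 : ℂ) ∈ Rc (2 * ρ) (2 * τ) := zero_mem_Rc (by linarith) (by linarith)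
  have m3 : (0 : ℂ) ∈ Rc (3 * ρ) (3 * τ) := zero_mem_Rc (by linarith) (by linarith)
  refine ⟨fun v hv => ?_, fun v g1 g2 g3 => ?_⟩
  · have hv3 : v ∈ Rc (3 * ρ) (3 * τ) := Rc_mono (by linarith) (by linarith) hv
    refine (hF.near p hp3 v hv3).trans (exp_mono' ?_)
    rw [hQ0]
    have := hcvx p h1 h2 v hv
    beta_reduce
    linarith
  · refine (hF.far v g1 g2 g3 p hp3).2.trans (exp_mono' ?_)
    rw [hQ0]
    have k1 := hcvx p h1 h2 0 m0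
    rw [hK.sym p hp3 0 m3] at k1
    beta_reduce
    linarith

/-- the start for a far value of `p` -/
lemma start_far (hK : PK ρ τ κ c C₀ s)
    (hF : FN ρ τ κ ε D h₀ s a m Q kk N) (hQ0 : Q 0 = fun v => s 0 v)
    {p : ℂ}
    (h0 : ρ ≤ |p.re|) (h1 : |p.re| ≤ π) (h2 : |p.im| ≤ 1 / N) :
    HJ ρ τ κ Q N (-κ + κ / 64) 0 (fun v => kk p v) := by
  have hρ := hK.hρ
  have hτ := hK.hτ
  have hκ := hK.hκ
  refine ⟨fun v hv => ?_, fun v g1 g2 g3 => ?_⟩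
  · have hv3 : v ∈ Rc (3 * ρ) (3 * τ) := Rc_mono (by linarith) (by linarith) hv
    refine (hF.far p h0 h1 h2 v hv3).1.trans (exp_mono' ?_)
    rw [hQ0]
    beta_reduce
    linarith
  · refine (hF.farb p v h0 h1 g1 g2 h2 g3).trans (exp_mono' ?_)
    rw [hQ0]
    beta_reduce
    have hz := abs_le.1 hK.zero
    linarith [hz.1, hz.2]

lemma chX_congr {Λ Λ' : ℕ → (ℂ → ℂ) → ℂ} {p : ℂ} {j : ℕ}
    (h : ∀ i < j, Λ i = Λ' i) : chX Λ kk p j = chX Λ' kk p j := by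
  induction j with
  | zero => rfl
  | succ j ih =>
    funext v
    show Λ j (fun w => chX Λ kk p j w * kk w v) = Λ' j (fun w => chX Λ' kk p j w * kk w v)
    rw [h j (by omega), ih (fun i hi => h i (by omega))]

/-- the difference between the full and the near integral for one small shift -/
theorem delta_near (hK : PK ρ τ κ c C₀ s)
   
    (hR : Rf ρ τ κ h₀ s a m Q zs) (hF : FN ρ τ κ ε D h₀ s a m Q kk N) (hε : 0 ≤ ε)
    (hεκ : ε ≤ κ / 64) (hQ0 : Q 0 = fun v => s 0 v)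
    (hcvx : ∀ p : ℂ, |p.re| ≤ ρ → |p.im| ≤ 1 / N → ∀ v ∈ Rc (2 * ρ) (2 * τ),
      (s p v).re ≤ (s 0 v).re - c / 2 * p.re ^ 2 + ε)
    {ρ' g : ℝ} (hρ' : 0 < ρ') (hρρ : ρ' ≤ ρ) (hg1 : g ≤ κ / 2) (hg2 : g ≤ c / 2 * ρ' ^ 2)
    {r : ℕ → ℝ} (hr : ∀ j < m, r j = ρ) (hrm : r m = ρ')
    (hup : ∀ (f : ℂ → ℂ) (B : ℝ), Continuous f →
      ((∀ x y : ℝ, ρ' ≤ |x| → |x| ≤ π → |y| ≤ 1 / N → ‖f (x + y * Complex.I)‖ ≤ B) →
        ‖LI (a m) N f - LN ρ' (a m) N f‖ ≤ D * B) ∧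
      ((∀ x y : ℝ, |x| ≤ ρ' → |y| ≤ 1 / N → ‖f (x + y * Complex.I)‖ ≤ B) →
        ‖LN ρ' (a m) N f‖ ≤ D * B))
    :
    ‖itI a N (m + 1) (Wd kk (m + 1)) 0 - itN r a N (m + 1) (Wd kk (m + 1)) 0‖ ≤
      Real.exp (N * ((Q m 0).re - g + (2 * m + 4) * ε)) := by
  have hρ := hK.hρ
  have hτ := hK.hτ
  have hκ := hK.hκ
  have hc := hK.hc
  have hN := hF.hN
  set Λ : ℕ → (ℂ → ℂ) → ℂ := fun j => LI (a j) N with hΛ
  set Λ' : ℕ → (ℂ → ℂ) → ℂ := fun j => LN ρ (a j) N with hΛ'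
  have l1 : ∀ j, Sep.Lin (Λ j) := fun j => LI_lin (a j) hN
  have l2 : ∀ j, Sep.Lin (Λ' j) := fun j => LN_lin ρ (a j) hN
  have l3 : ∀ j, Sep.Lin ((fun j => LN (r j) (a j) N) j) := fun j => LN_lin (r j) (a j) hN
  have e1 : itI a N (m + 1) (Wd kk (m + 1)) 0 = LI (a m) N (fun w => chX Λ kk w m w) := by
    rw [itI_eq, itG_Wd_last l1 hF.sep]
  have e2 : itN r a N (m + 1) (Wd kk (m + 1)) 0 = LN ρ' (a m) N (fun w => chX Λ' kk w m w) := by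
    unfold itN
    rw [itG_Wd_last l3 hF.sep]
    beta_reduce
    rw [hrm]
    congr 1
    funext w
    rw [chX_congr (Λ' := Λ')]
    intro i hi
    rw [hΛ']
    beta_reduce
    rw [hr i hi]
  have d1 := chX_diag_diff l1 hF.sep m
  have d2 := chX_diag_diff l2 hF.sep m
  have hmε : 0 ≤ (m : ℝ) * ε := by positivity
  -- bounds of the full chain
  have b1 : ∀ p : ℂ, |p.re| ≤ π → |p.im| ≤ 1 / N → ρ' ≤ |p.re| →
      ‖chX Λ kk p m p‖ ≤ Real.exp (N * ((Q m 0).re - g + (2 * m + 3) * ε)) := by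
    intro p h1 h2 h3
    rcases le_total ρ |p.re| with h4 | h4
    · have k1 := (HJ_all hK hR hF hε hεκ (start_far hK hF hQ0 h4 h1 h2)
        le_rfl).2 p h4 h1 h2
      refine k1.trans (exp_mono' ?_)
      linarith
    · have hp2 := real_mem hK hF h4 h2
      have k1 := (HJ_all hK hR hF hε hεκ
        (start_near hK hF hε hQ0 hcvx h4 h2) le_rfl).1 p hp2
      refine k1.trans (exp_mono' ?_)
      have k2 := hF.real m le_rfl p h4 h2
      have k3 : ρ' ^ 2 ≤ p.re ^ 2 := by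
        rw [← sq_abs p.re]
        exact pow_le_pow_left₀ hρ'.le h3 2
      have k4 := mul_le_mul_of_nonneg_left k3 (show 0 ≤ c / 2 by linarith)
      linarith
  have b2 : ∀ p : ℂ, |p.re| ≤ ρ' → |p.im| ≤ 1 / N →
      ‖chX Λ kk p m p - chX Λ' kk p m p‖ ≤
        Real.exp (N * ((Q m 0).re - g + (2 * m + 3) * ε)) := by
    intro p h1 h2
    have h4 : |p.re| ≤ ρ := h1.trans hρρ
    have hp2 := real_mem hK hF h4 h2
    have k1 := DJ_all hK hR hF hε hεκ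
      (start_near hK hF hε hQ0 hcvx h4 h2) le_rfl p hp2
    refine k1.trans (exp_mono' ?_)
    have k2 := hF.real m le_rfl p h4 h2
    have k4 : 0 ≤ c / 2 * p.re ^ 2 := by positivity
    linarith
  have n1 := (hup _ _ d1.continuous).1 fun x y g1 g2 g3 =>
    b1 (x + y * Complex.I) (by rwa [xy_re]) (by rwa [xy_im]) (by rwa [xy_re])
  have n2 := (hup (fun w => chX Λ kk w m w - chX Λ' kk w m w) _ (d1.sub d2).continuous).2
    fun x y g1 g2 => b2 (x + y * Complex.I) (by rwa [xy_re]) (by rwa [xy_im])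
  rw [← LN_sub ρ' (a m) hN d1 d2] at n2
  have e3 : itI a N (m + 1) (Wd kk (m + 1)) 0 - itN r a N (m + 1) (Wd kk (m + 1)) 0 =
      (LI (a m) N (fun w => chX Λ kk w m w) - LN ρ' (a m) N (fun w => chX Λ kk w m w)) +
      (LN ρ' (a m) N (fun w => chX Λ kk w m w) - LN ρ' (a m) N (fun w => chX Λ' kk w m w)) := by
    rw [e1, e2]
    ring
  rw [e3]
  refine (norm_add_le _ _).trans ?_
  exact two_sum hF.D2 n1 n2 (by linarith)

end

end Pool.Agent.Y481.X
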