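import Pool.Agent.Y481.X.Rec2
import Pool.Agent.Y481.Rec3

/-!
# The facts hold for all large `N`, general kernels
-/

set_option autoImplicit false

namespace Pool.Agent.Y481.X

open Finset Filter Topology Metric MeasureTheory
open Pool.Agent.W711.HT
open Pool.Agent.Y481
open Pool.Agent.W293.HT (GH cauchy2)
open Pool.Agent.W85.HT (Kc Kc_mem Kc_compact Rc_mono xy_re xy_im)
open scoped Real

section

variable {ρ τ κ c C₀ ε₀ r₀ ε D h₀ : ℝ} {s : ℂ → ℂ → ℂ} {m : ℕ} {a : ℕ → ℤ}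
  {Q zs : ℕ → ℂ → ℂ} {k : ℕ → ℂ → ℂ → ℂ}

/-- the functions `s · v` -/
lemma gh_s (hK : PP ρ τ c C₀ s) : ∀ v ∈ Rc (3 * ρ) (3 * τ),
    GH ρ τ c (8 * C₀ / τ ^ 2 + 1) (fun w => s w v) := by
  have hC₀ := hK.sbd
  have hρ := hK.hρ
  have hτ := hK.hτ
  intro v hv
  have han : DifferentiableOn ℂ (fun w => s w v) (Rc (3 * ρ) (3 * τ)) := by
    have : DifferentiableOn ℂ (fun w : ℂ => (w, v)) (Rc (3 * ρ) (3 * τ)) :=
      (differentiable_id.prodMk (differentiable_const v)).differentiableOn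
    exact hK.san.comp this (fun w hw => ⟨hw, hv⟩)
  refine ⟨han, fun w hw => hK.ev w hw v hv, fun w hw => ?_, fun w hw => ?_⟩
  · exact hK.conc w (Rc_mono (by linarith) (by linarith) hw) v hv
  · refine (cauchy2 hτ.1 hτ.2 han (fun z hz => hC₀ z hz v hv) hw).trans ?_
    linarith

/-- bound of the critical points -/
lemma zn_bd (hK : PP ρ τ c C₀ s) (m : ℕ) (a : ℕ → ℤ) (z : ℕ → ℂ) (w : ℂ)
    (hw : w ∈ Rc (3 * ρ) (3 * τ)) (hz : ∀ j < m, z j ∈ Rc ρ τ ∧ ‖z j‖ ≤ 1)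
    (hch : ChCrit s m a (ends m w w z)) :
    ∀ j < m, |(a j : ℝ)| * ‖z j‖ ≤ 2 * π * (1 + 2 * (8 * C₀ / τ ^ 2 + 1)) := by
  have hG := gh_s hK
  have hρ := hK.hρ
  have hτ := hK.hτ
  have hC0 := hK.hC
  obtain ⟨C, hCdef⟩ : ∃ C : ℝ, C = 8 * C₀ / τ ^ 2 + 1 := ⟨_, rfl⟩
  have hC : 0 < C := by have := hτ.1; rw [hCdef]; positivity
  rw [← hCdef] at hG ⊢
  intro j hj
  have hz3 : ∀ j < m, z j ∈ Rc (3 * ρ) (3 * τ) := fun j hj =>
    Rc_mono (by linarith) (by linarith) (hz j hj).1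
  have hE : ∀ i, ends m w w z i ∈ Rc (3 * ρ) (3 * τ) := by
    intro i
    unfold ends
    split_ifs with h1 h2
    · exact hw
    · exact hz3 (i - 1) (by omega)
    · exact hw
  have h1 := hch j hj
  have e1 : ends m w w z (j + 1) = z j := by
    unfold ends
    rw [if_neg (by omega), if_pos (by omega), Nat.add_sub_cancel]
  rw [e1] at h1
  have hz2 : z j ∈ Rc (2 * ρ) (2 * τ) := Rc_mono (by linarith) (by linarith) (hz j hj).1
  have k1 : ∀ u ∈ Rc (3 * ρ) (3 * τ), ‖deriv (fun v => s v u) (z j)‖ ≤ C := by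
    intro u hu
    refine ((hG u hu).d1 hρ.1 hτ.1 hz2).trans ?_
    have := (hz j hj).2
    nlinarith [norm_nonneg (z j)]
  have k2 : deriv (fun v => s (ends m w w z j) v) (z j) =
      deriv (fun v => s v (ends m w w z j)) (z j) := by
    apply Filter.EventuallyEq.deriv_eq
    filter_upwards [(Pool.Agent.W85.HT.open_Rc (3 * ρ) (3 * τ)).mem_nhds (hz3 j hj)] with x hx
    exact hK.sym _ (hE j) x hx
  rw [k2] at h1
  have h2 : Complex.I * a j * z j / (2 * π) = -(Complex.I +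
      deriv (fun v => s v (ends m w w z j)) (z j) +
      deriv (fun v => s v (ends m w w z (j + 2))) (z j)) := by
    linear_combination h1
  have h3 : ‖Complex.I * a j * z j / (2 * π)‖ ≤ 1 + 2 * C := by
    rw [h2, norm_neg]
    have n1 := norm_add_le (Complex.I + deriv (fun v => s v (ends m w w z j)) (z j))
      (deriv (fun v => s v (ends m w w z (j + 2))) (z j))
    have n2 := norm_add_le Complex.I (deriv (fun v => s v (ends m w w z j)) (z j))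
    rw [Complex.norm_I] at n2
    linarith [k1 _ (hE j), k1 _ (hE (j + 2))]
  have e2 : ‖Complex.I * a j * z j / (2 * π)‖ = |(a j : ℝ)| * ‖z j‖ / (2 * π) := by
    rw [norm_div, norm_mul, norm_mul, Complex.norm_I, one_mul, Complex.norm_intCast, norm_mul,
      Complex.norm_real, Real.norm_eq_abs, abs_of_pos Real.pi_pos]
    norm_num
  rw [e2, div_le_iff₀ (by positivity)] at h3
  linarith

lemma cvx_ev (hK : PP ρ τ c C₀ s) {ε : ℝ} (hε : 0 < ε) : ∀ᶠ N : ℕ in atTop,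
    ∀ p : ℂ, |p.re| ≤ ρ → |p.im| ≤ 1 / N → ∀ v ∈ Rc (2 * ρ) (2 * τ),
      (s p v).re ≤ (s 0 v).re - c / 2 * p.re ^ 2 + ε := by
  have hG := gh_s hK
  have hρ := hK.hρ
  have hτ := hK.hτ
  have hKK : Kc (2 * ρ) (2 * τ) ⊆ Rc (3 * ρ) (3 * τ) := Kc_sub_Rc (by linarith) (by linarith)
  have hcont := hK.san.continuousOn.mono (Set.prod_mono hKK hKK)
  have huc := ((Kc_compact (2 * ρ) (2 * τ)).prod
    (Kc_compact (2 * ρ) (2 * τ))).uniformContinuousOn_of_continuous hcont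
  rw [Metric.uniformContinuousOn_iff] at huc
  obtain ⟨δ, hδ, hδ2⟩ := huc ε hε
  filter_upwards [inv_small hδ, inv_small hτ.1] with N h1 h2 p hp1 hp2 v hv
  have hv3 : v ∈ Rc (3 * ρ) (3 * τ) := Rc_mono (by linarith) (by linarith) hv
  have k1 := Pool.Agent.TH563.UV.real_axis (hG v hv3) hτ.1 hρ.1 p.re hp1
  have hpK : p ∈ Kc (2 * ρ) (2 * τ) := by
    rw [Kc_mem]
    constructor <;> linarith
  have hpK' : (p.re : ℂ) ∈ Kc (2 * ρ) (2 * τ) := by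
    rw [Kc_mem, Complex.ofReal_re, Complex.ofReal_im, abs_zero]
    constructor <;> linarith
  have k2 := hδ2 (p, v) ⟨hpK, Rc_sub_Kc hv⟩ ((p.re : ℂ), v) ⟨hpK', Rc_sub_Kc hv⟩ (by
    rw [Prod.dist_eq, dist_self, dist_eq_norm]
    have : p - (p.re : ℂ) = p.im * Complex.I := by
      apply Complex.ext <;> simp
    rw [this, norm_mul, Complex.norm_I, mul_one, Complex.norm_real, Real.norm_eq_abs]
    exact max_lt (by linarith) hδ)
  rw [dist_eq_norm] at k2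
  have k3 := (Complex.re_le_norm _).trans k2.le
  rw [Complex.sub_re] at k3
  linarith

/-- the imaginary parts of the critical points are bounded from below -/
lemma rf_of_cc (hK : PP ρ τ c C₀ s) (h : CC ρ τ κ ε₀ r₀ s a m 0 Q zs) :
    ∃ h₀ : ℝ, 0 < h₀ ∧ Rf ρ τ κ h₀ s a m Q zs := by
  have hρ := hK.hρ
  have hτ := hK.hτ
  have hKK : Kc (2 * ρ) (2 * τ) ⊆ Rc (3 * ρ) (3 * τ) := Kc_sub_Rc (by linarith) (by linarith)
  have h1 : ∀ j : ℕ, ∃ h₀ : ℝ, 0 < h₀ ∧ (j < m → ∀ ψ ∈ Kc (2 * ρ) (2 * τ), h₀ ≤ (zs j ψ).im) := by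
    intro j
    by_cases hj : j < m
    · obtain ⟨ψ₀, hψ₀, hmin⟩ := (Kc_compact (2 * ρ) (2 * τ)).exists_isMinOn
        ⟨0, zero_mem_Kc (by linarith) (by linarith)⟩
        (Complex.continuous_im.comp_continuousOn ((h.zan j hj).continuousOn.mono hKK))
      exact ⟨(zs j ψ₀).im, (h.st j hj ψ₀ (hKK hψ₀)).2.1.im, fun _ ψ hψ => hmin hψ⟩
    · exact ⟨1, one_pos, fun h => absurd h hj⟩
  choose h₀ h2 h3 using h1
  refine ⟨if hm : (range m).Nonempty then (range m).inf' hm h₀ else 1, ?_, ?_, ?_⟩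
  · split_ifs with hm
    · rw [Finset.lt_inf'_iff]
      exact fun j _ => h2 j
    · exact one_pos
  · intro j hj ψ hψ
    obtain ⟨k1, k2, k3, -, k5, -⟩ := h.st j hj ψ hψ
    exact ⟨k1, k2.mem, k3, k5⟩
  · intro j hj ψ hψ
    have hm : (range m).Nonempty := ⟨j, mem_range.2 hj⟩
    rw [dif_pos hm]
    exact ((range m).inf'_le h₀ (mem_range.2 hj)).trans (h3 j hj ψ (Rc_sub_Kc hψ))

/-- the near bound -/
lemma near_of (hK : PP ρ τ c C₀ s) (hG : KS ρ τ κ s k) {ε : ℝ} (hε : 0 < ε) :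
    ∀ᶠ N : ℕ in atTop, ∀ ψ ∈ Rc (3 * ρ) (3 * τ), ∀ ψ' ∈ Rc (3 * ρ) (3 * τ),
      ‖k N ψ ψ'‖ ≤ Real.exp (N * ((s ψ ψ').re + ε)) := by
  filter_upwards [hG.mw ε hε] with N hN ψ hψ ψ' hψ'
  obtain ⟨h1, h2⟩ := hN ψ hψ ψ' hψ'
  have h3 := (abs_le.1 h2).2
  have h4 : Real.log ‖k N ψ ψ'‖ ≤ N * ((s ψ ψ').re + ε) := by linarith
  exact (Real.log_le_iff_le_exp (norm_pos_iff.2 h1)).1 h4

/-- the facts hold for all large `N` -/
theorem fn_ev (hK : PK ρ τ κ c C₀ s) (hG : KS ρ τ κ s k) (hcc : CC ρ τ κ ε₀ r₀ s a m 0 Q zs)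
    (hreal : ∀ j ≤ m, ∀ x : ℝ, |x| ≤ ρ → (Q j x).re ≤ (Q j 0).re) (hh₀ : 0 < h₀)
    {ρ' : ℝ} (hρ' : 0 < ρ') (hρπ' : ρ' ≤ π) :
    ∃ D : ℝ, 0 ≤ D ∧ ∀ ε : ℝ, 0 < ε → ∀ᶠ N : ℕ in atTop, FN ρ τ κ ε D h₀ s a m Q (k N) N ∧
      (∀ p : ℂ, |p.re| ≤ ρ → |p.im| ≤ 1 / N → ∀ v ∈ Rc (2 * ρ) (2 * τ),
        (s p v).re ≤ (s 0 v).re - c / 2 * p.re ^ 2 + ε) ∧
      (∀ (f : ℂ → ℂ) (B : ℝ), Continuous f →
      ((∀ x y : ℝ, ρ' ≤ |x| → |x| ≤ π → |y| ≤ 1 / N → ‖f (x + y * Complex.I)‖ ≤ B) →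
        ‖LI (a m) N f - LN ρ' (a m) N f‖ ≤ D * B) ∧
      ((∀ x y : ℝ, |x| ≤ ρ' → |y| ≤ 1 / N → ‖f (x + y * Complex.I)‖ ≤ B) →
        ‖LN ρ' (a m) N f‖ ≤ D * B)) := by
  have hρ := hK.hρ
  have hτ := hK.hτ
  have hπ := Real.pi_gt_three
  obtain ⟨D₁, hD₁, hup⟩ := up_ev m a
  obtain ⟨C, hC, hub⟩ := ub hρ.1 hτ.1
  refine ⟨D₁ + C, by positivity, fun ε hε => ?_⟩
  have hr : ∀ j ∈ range (m + 1), ∀ᶠ N : ℕ in atTop, ∀ v : ℂ, |v.re| ≤ ρ → |v.im| ≤ 1 / N →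
      (Q j v).re ≤ (Q j 0).re + ε := fun j hj =>
    real_ev hρ.1 hτ.1 (hcc.an j (by rw [mem_range] at hj; omega))
      (hreal j (by rw [mem_range] at hj; omega)) hε
  filter_upwards [eventually_ge_atTop 1, near_of hK.toPP hG hε, hG.far, hG.farg, hG.farb,
    (Filter.eventually_all_finset (range (m + 1))).2 hr, inv_small hτ.1,
    hup ρ hρ.1 (by linarith), hup ρ' hρ' hρπ', hub h₀ hh₀,
    Pool.Agent.W85.HT.ev_exp hε (2 * (D₁ + C)), cvx_ev hK.toPP hε] with N a1 a2 a3 a4 a5 a6 a7 a8 a9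
    a10 a11 a12
  refine ⟨⟨a1, hG.sep N, a2, a3, a4, a5, fun j hj => a6 j (mem_range.2 (by omega)), a7, ?_, ?_,
    by positivity, ?_⟩, a12, ?_⟩
  · intro j hj f B hf
    obtain ⟨g1, g2⟩ := a8 j hj f B hf
    refine ⟨fun hb => (g1 hb).trans (mul_le_mul_of_nonneg_right (by linarith) ?_),
      fun hb => (g2 hb).trans (mul_le_mul_of_nonneg_right (by linarith) ?_)⟩
    · refine (norm_nonneg _).trans (hb ρ 0 ?_ ?_ ?_)
      · rw [abs_of_pos hρ.1]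
      · rw [abs_of_pos hρ.1]; linarith
      · rw [abs_zero]; positivity
    · refine (norm_nonneg _).trans (hb 0 0 ?_ ?_)
      · rw [abs_zero]; exact hρ.1.le
      · rw [abs_zero]; positivity
  · intro b Y G z β h1 h2 h3 h4 h5
    refine (a10 b Y G z β h1 h2 h3 h4 h5).trans ?_
    exact mul_le_mul_of_nonneg_right (by linarith) (Real.exp_pos _).le
  · rw [mul_comm (N : ℝ) ε]
    exact a11
  · intro f B hf
    obtain ⟨g1, g2⟩ := a9 m le_rfl f B hf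
    refine ⟨fun hb => (g1 hb).trans (mul_le_mul_of_nonneg_right (by linarith) ?_),
      fun hb => (g2 hb).trans (mul_le_mul_of_nonneg_right (by linarith) ?_)⟩
    · refine (norm_nonneg _).trans (hb ρ' 0 ?_ ?_ ?_)
      · rw [abs_of_pos hρ']
      · rw [abs_of_pos hρ']; exact hρπ'
      · rw [abs_zero]; positivity
    · refine (norm_nonneg _).trans (hb 0 0 ?_ ?_)
      · rw [abs_zero]; exact hρ'.le
      · rw [abs_zero]; positivity

end

end Pool.Agent.Y481.X
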