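import Pool.Agent.Y481.X.Even
import Pool.Agent.Y481.Main

/-!
# The growth rate of the ring is the critical value, absolute constants, general kernels
-/

set_option autoImplicit false

namespace Pool.Agent.Y481.X

open Finset Filter Topology Metric MeasureTheory
open Pool.Agent.W711.HT
open Pool.Agent.Y481
open Pool.Agent.TH563.UV (CPu)
open Pool.Agent.W85.HT (Kc Kc_mem Kc_compact Rc_mono lap_strong)
open scoped Real

/-- the constants of the first window -/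
structure W1 (ρ τ κ c C₀ ε₀ r₀ K : ℝ) (s : ℂ → ℂ → ℂ) : Prop where
  hK : PK ρ τ κ c C₀ s
  hε₀ : 0 < ε₀
  hr₀ : r₀ ≤ 1 / 10
  hK0 : 0 < K
  cpu : CPU1 ρ τ κ ε₀ r₀ K s
  real : ∀ F : ℂ → ℂ, DifferentiableOn ℂ F (Rc (3 * ρ) (3 * τ)) →
      (∀ ψ ∈ Rc (3 * ρ) (3 * τ), F (-ψ) = F ψ) →
      (∀ ψ ∈ Rc (3 * ρ) (3 * τ), ‖F ψ - F 0 - (s 0 ψ - s 0 0)‖ ≤ ε₀) →
      ∀ x : ℝ, |x| ≤ ρ → (F x).re ≤ (F 0).re

/-- the constants of the second window -/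
structure W2 (ρ τ κ c C₀ ε₀ ρ' τ' κ' g ε₁ K' η : ℝ) (s : ℂ → ℂ → ℂ) : Prop where
  hK : PP ρ' τ' c C₀ s
  hρ : ρ' ≤ ρ / 2
  hτ : τ' ≤ τ / 2
  cl : ∀ p ∈ Rc (3 * ρ') (3 * τ'), ∀ ψ ∈ Rc (3 * ρ) (3 * τ),
    ‖s p ψ - s p 0 - (s 0 ψ - s 0 0)‖ ≤ ε₀
  hg0 : 0 < g
  hg1 : g ≤ κ / 2
  hg2 : g ≤ c / 2 * ρ' ^ 2
  hκg : κ' ≤ g
  hε₁ : 0 < ε₁
  hK' : 0 < K'
  cpu : ∀ F : ℂ → ℂ, DifferentiableOn ℂ F (Rc (3 * ρ') (3 * τ')) →
      (∀ ψ ∈ Rc (3 * ρ') (3 * τ'), F (-ψ) = F ψ) →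
      (∀ ψ ∈ Rc (3 * ρ') (3 * τ'), ‖F ψ - F 0 - (2 : ℕ) * (s 0 ψ - s 0 0)‖ ≤ (2 : ℕ) * ε₁) →
      ∀ a : ℤ, K' ≤ |(a : ℝ)| → ∃ z : ℂ, CPu ρ' τ' (1 / 10) z ∧ SAD a F ρ' z ∧
          Complex.I * a * z / (2 * π) + Complex.I + deriv F z = 0 ∧ ‖qq a F z - F 0‖ ≤ κ' / 16
  hη : 0 < η
  der : ∀ z : ℂ, ‖z‖ < η → ∀ w ∈ Rc (3 * ρ') (3 * τ'),
      ‖deriv (fun v => s v z) w - deriv (fun v => s v 0) w‖ ≤ ε₁

/-- the constants of the critical points -/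
structure W3 (ρ τ rc Mc B K K' η M : ℝ) (s : ℂ → ℂ → ℂ) : Prop where
  hrc : 0 < rc
  chv : ∀ (m : ℕ) (a : ℕ → ℤ), 1 ≤ m → (∀ j < m, Mc ≤ |(a j : ℝ)|) →
    ∃ zz : ℂ → ℕ → ℂ, ∀ w ∈ Rc (2 * ρ) (2 * τ), (∀ j < m, ‖zz w j‖ ≤ rc) ∧
      ChCrit s m a (ends m w w (zz w)) ∧
      (∀ z : ℕ → ℂ, (∀ j < m, ‖z j‖ ≤ rc) → ChCrit s m a (ends m w w z) →
        ∀ j < m, z j = zz w j) ∧
      HasDerivAt (fun w => ChVal s m a (ends m w w (zz w)))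
        (deriv (fun v => s v (zz w 0)) w + deriv (fun v => s (zz w (m - 1)) v) w) w
  bd : ∀ (m : ℕ) (a : ℕ → ℤ) (z : ℕ → ℂ) (w : ℂ),
    w ∈ Rc (3 * ρ) (3 * τ) → (∀ j < m, z j ∈ Rc ρ τ ∧ ‖z j‖ ≤ 1) → ChCrit s m a (ends m w w z) →
    ∀ j < m, |(a j : ℝ)| * ‖z j‖ ≤ B
  hM : 0 < M
  h1 : Mc ≤ M
  h2 : K ≤ M
  h3 : K' ≤ M
  h4 : B / M ≤ rc
  h5 : B / M < η
  hB : 0 < B

section

variable {ρ τ κ c C₀ ε₀ r₀ K ρ' τ' κ' g ε₁ K' η rc Mc B M : ℝ} {s : ℂ → ℂ → ℂ} {m : ℕ}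
  {a : ℕ → ℤ} {r : ℕ → ℝ} {k : ℕ → ℂ → ℂ → ℂ}

lemma W2.sub (h1 : W1 ρ τ κ c C₀ ε₀ r₀ K s)
    (h2 : W2 ρ τ κ c C₀ ε₀ ρ' τ' κ' g ε₁ K' η s) : Rc (3 * ρ') (3 * τ') ⊆ Rc (2 * ρ) (2 * τ) :=
  Rc_mono (by linarith [h2.hρ, h1.hK.hρ.1]) (by linarith [h2.hτ, h1.hK.hτ.1])

lemma W1.sub (h1 : W1 ρ τ κ c C₀ ε₀ r₀ K s) : Rc (2 * ρ) (2 * τ) ⊆ Rc (3 * ρ) (3 * τ) :=
  Rc_mono (by linarith [h1.hK.hρ.1]) (by linarith [h1.hK.hτ.1])

/-- existence of the chains -/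
lemma W1.cc (h1 : W1 ρ τ κ c C₀ ε₀ r₀ K s)
    (h2 : W2 ρ τ κ c C₀ ε₀ ρ' τ' κ' g ε₁ K' η s) (h3 : W3 ρ τ rc Mc B K K' η M s)
    (ha : ∀ j < m + 1, M ≤ |(a j : ℝ)|) {w : ℂ} (hw : w ∈ Rc (3 * ρ') (3 * τ')) :
    ∃ Q zs : ℕ → ℂ → ℂ, CC ρ τ κ ε₀ r₀ s a m w Q zs :=
  cc_exists h1.hK h1.cpu (h1.sub (h2.sub h1 hw)) (h2.cl w hw) m
    (fun i hi => h3.h2.trans (ha i (by omega)))

/-- identification of the chains with the critical configurations `zz` -/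
lemma W1.hid (h1 : W1 ρ τ κ c C₀ ε₀ r₀ K s)
    (h2 : W2 ρ τ κ c C₀ ε₀ ρ' τ' κ' g ε₁ K' η s) (h3 : W3 ρ τ rc Mc B K K' η M s)
    (ha : ∀ j < m + 1, M ≤ |(a j : ℝ)|) {zz : ℂ → ℕ → ℂ}
    (hzz : ∀ w ∈ Rc (2 * ρ) (2 * τ), ∀ z : ℕ → ℂ, (∀ j < m, ‖z j‖ ≤ rc) →
      ChCrit s m a (ends m w w z) → ∀ j < m, z j = zz w j)
    {w : ℂ} (hw : w ∈ Rc (3 * ρ') (3 * τ')) {Q zs : ℕ → ℂ → ℂ}
    (hcc : CC ρ τ κ ε₀ r₀ s a m w Q zs) :
    (∀ j < m, CPu ρ τ r₀ (zz w j) ∧ ‖zz w j‖ ≤ B / M) ∧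
      Q m w = ChVal s m a (ends m w w (zz w)) := by
  have hwR := h1.sub (h2.sub h1 hw)
  obtain ⟨z, k1, k2, k3, -⟩ := cc_ch h1.hK hcc hwR le_rfl w hwR
  have hr₀ := h1.hr₀
  have hB := h3.bd m a z w hwR (fun j hj => ⟨(k1 j hj).mem, by linarith [(k1 j hj).sm]⟩) k2
  have hzn : ∀ j < m, ‖z j‖ ≤ B / M := by
    intro j hj
    have hM := h3.hM
    rw [le_div_iff₀ hM]
    have := mul_le_mul_of_nonneg_right (ha j (by omega)) (norm_nonneg (z j))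
    linarith [hB j hj]
  have hzeq := hzz w (h2.sub h1 hw) z (fun j hj => (hzn j hj).trans h3.h4) k2
  have hends : ends m w w z = ends m w w (zz w) := by
    funext i
    unfold ends
    by_cases h0 : i = 0
    · simp [h0]
    · rw [if_neg h0, if_neg h0]
      by_cases h1 : i ≤ m
      · rw [if_pos h1, if_pos h1, hzeq (i - 1) (by omega)]
      · rw [if_neg h1, if_neg h1]
  refine ⟨fun j hj => ?_, by rw [k3, hends]⟩
  rw [← hzeq j hj]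
  exact ⟨k1 j hj, hzn j hj⟩

/-- asymptotics of the kernel of the ring -/
lemma wr_lim (hK : PK ρ τ κ c C₀ s) (hS : KS ρ τ κ s k) {n : ℕ} (hn : 1 ≤ n) {ψ : ℕ → ℕ → ℂ}
    {ψ₀ : ℕ → ℂ} (h₀ : ∀ j < n, ψ₀ j ∈ Rc (3 * ρ) (3 * τ))
    (hlim : ∀ j < n, Tendsto (fun N => ψ N j) atTop (𝓝 (ψ₀ j))) :
    Tendsto (fun N => Real.log ‖Wr k n N (ψ N)‖ / N) atTop
      (𝓝 (∑ j ∈ range n, s (ψ₀ j) (ψ₀ ((j + 1) % n))).re) := by
  have hopen := Pool.Agent.W85.HT.open_Rc (3 * ρ) (3 * τ)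
  have hmem : ∀ j < n, ∀ᶠ N in atTop, ψ N j ∈ Rc (3 * ρ) (3 * τ) := fun j hj =>
    (hlim j hj).eventually (hopen.mem_nhds (h₀ j hj))
  -- one edge
  have hedge : ∀ j < n, Tendsto (fun N => Real.log ‖k N (ψ N j) (ψ N ((j + 1) % n))‖ / N) atTop
      (𝓝 (s (ψ₀ j) (ψ₀ ((j + 1) % n))).re) := by
    intro j hj
    have hj' : (j + 1) % n < n := Nat.mod_lt _ (by omega)
    have hcont : ContinuousAt (fun p : ℂ × ℂ => s p.1 p.2) (ψ₀ j, ψ₀ ((j + 1) % n)) :=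
      (hK.san.differentiableAt ((hopen.prod hopen).mem_nhds ⟨h₀ j hj, h₀ _ hj'⟩)).continuousAt
    have h1 : Tendsto (fun N => (s (ψ N j) (ψ N ((j + 1) % n))).re) atTop
        (𝓝 (s (ψ₀ j) (ψ₀ ((j + 1) % n))).re) := by
      have h2 : Tendsto (fun N => (ψ N j, ψ N ((j + 1) % n))) atTop
          (𝓝 (ψ₀ j, ψ₀ ((j + 1) % n))) := (hlim j hj).prodMk_nhds (hlim _ hj')
      exact (Complex.continuous_re.continuousAt.tendsto.comp (hcont.tendsto.comp h2))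
    rw [Metric.tendsto_nhds] at h1 ⊢
    intro ε hε
    filter_upwards [h1 (ε / 2) (half_pos hε), hS.mw (ε / 4) (by positivity), hmem j hj,
      hmem _ hj', eventually_gt_atTop 0] with N a1 a2 a3 a4 a5
    have hN : (0 : ℝ) < N := by exact_mod_cast a5
    obtain ⟨-, b1⟩ := a2 _ a3 _ a4
    rw [Real.dist_eq] at a1 ⊢
    have b2 : |Real.log ‖k N (ψ N j) (ψ N ((j + 1) % n))‖ / N -
        (s (ψ N j) (ψ N ((j + 1) % n))).re| ≤ ε / 4 := by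
      have e : Real.log ‖k N (ψ N j) (ψ N ((j + 1) % n))‖ / N -
          (s (ψ N j) (ψ N ((j + 1) % n))).re = (Real.log ‖k N (ψ N j) (ψ N ((j + 1) % n))‖ -
            N * (s (ψ N j) (ψ N ((j + 1) % n))).re) / N := by field_simp
      rw [e, abs_div, abs_of_pos hN, div_le_iff₀ hN]
      exact b1
    have b3 := abs_add_le (Real.log ‖k N (ψ N j) (ψ N ((j + 1) % n))‖ / N -
        (s (ψ N j) (ψ N ((j + 1) % n))).re) ((s (ψ N j) (ψ N ((j + 1) % n))).re -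
          (s (ψ₀ j) (ψ₀ ((j + 1) % n))).re)
    rw [sub_add_sub_cancel] at b3
    linarith
  have hsum := tendsto_finset_sum (range n) fun j hj => hedge j (mem_range.1 hj)
  rw [Complex.re_sum]
  refine hsum.congr' ?_
  filter_upwards [hS.mw 1 one_pos, (Filter.eventually_all_finset (range n)).2
    fun j hj => hmem j (mem_range.1 hj)] with N a2 a3
  have hne : ∀ j ∈ range n, ‖k N (ψ N j) (ψ N ((j + 1) % n))‖ ≠ 0 := by
    intro j hj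
    have hj' : (j + 1) % n < n := Nat.mod_lt _ (by omega)
    exact norm_ne_zero_iff.2 (a2 _ (a3 j hj) _ (a3 _ (mem_range.2 hj'))).1
  rw [← sum_div]
  congr 1
  unfold Wr
  rw [norm_prod, Real.log_prod hne]

lemma sum_val {m : ℕ} : (((m : ℂ) * ((2 * bet : ℝ) : ℂ))).re = m * (2 * bet) := by
  rw [← Complex.ofReal_natCast, ← Complex.ofReal_mul, Complex.ofReal_re]

/-- the near integral -/
lemma near_lim (h1 : W1 ρ τ κ c C₀ ε₀ r₀ K s)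
    (h2 : W2 ρ τ κ c C₀ ε₀ ρ' τ' κ' g ε₁ K' η s) (h3 : W3 ρ τ rc Mc B K K' η M s)
    (hS : KS ρ τ κ s k) (hm : 1 ≤ m)
    (ha : ∀ j < m + 1, M ≤ |(a j : ℝ)|) (hr : ∀ i < m, r i = ρ) (hrm : r m = ρ') :
    ∃ (z : ℕ → ℂ) (V : ℝ), RCrit s ρ τ (m + 1) a z ∧ (RVal s (m + 1) a z).re = V ∧
      (∀ Q zs : ℕ → ℂ → ℂ, CC ρ τ κ ε₀ r₀ s a m 0 Q zs → (Q m 0).re - g / 16 ≤ V) ∧
      ∀ ε : ℝ, 0 < ε → ∀ᶠ N : ℕ in atTop,
        Real.exp (N * (V - ε)) ≤ ‖itN r a N (m + 1) (Wr k (m + 1) N) 0‖ ∧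
        ‖itN r a N (m + 1) (Wr k (m + 1) N) 0‖ ≤ Real.exp (N * (V + ε)) := by
  have hρ := h1.hK.hρ
  have hτ := h1.hK.hτ
  have hκ := h1.hK.hκ
  have hρ' := h2.hK.hρ
  have hτ' := h2.hK.hτ
  have hπ := Real.pi_gt_three
  have hsm := h2.sub h1
  have hR23 := h1.sub
  have hhρ := h2.hρ
  have hhτ := h2.hτ
  obtain ⟨zz, hzz⟩ := h3.chv m a hm (fun j hj => h3.h1.trans (ha j (by omega)))
  set F : ℂ → ℂ := fun w => ChVal s m a (ends m w w (zz w)) with hF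
  have hzz' : ∀ w ∈ Rc (2 * ρ) (2 * τ), ∀ z : ℕ → ℂ, (∀ j < m, ‖z j‖ ≤ rc) →
      ChCrit s m a (ends m w w z) → ∀ j < m, z j = zz w j := fun w hw => (hzz w hw).2.2.1
  have hid : ∀ w ∈ Rc (3 * ρ') (3 * τ'), (∀ j < m, CPu ρ τ r₀ (zz w j) ∧ ‖zz w j‖ ≤ B / M) ∧
      ∃ Q zs : ℕ → ℂ → ℂ, CC ρ τ κ ε₀ r₀ s a m w Q zs ∧ Q m w = F w := by
    intro w hw
    obtain ⟨Q, zs, hcc⟩ := h1.cc h2 h3 ha hw
    obtain ⟨k1, k2⟩ := h1.hid h2 h3 ha hzz' hw hcc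
    exact ⟨k1, Q, zs, hcc, k2⟩
  have hzR : ∀ w ∈ Rc (3 * ρ') (3 * τ'), ∀ j < m, zz w j ∈ Rc (3 * ρ) (3 * τ) :=
    fun w hw j hj => Rc_mono (by linarith) (by linarith) ((hid w hw).1 j hj).1.mem
  have h0' : (0 : ℂ) ∈ Rc (3 * ρ') (3 * τ') := zero_mem_Rc (by linarith) (by linarith)
  have hFder : ∀ w ∈ Rc (3 * ρ') (3 * τ'), HasDerivAt F
      (deriv (fun v => s v (zz w 0)) w + deriv (fun v => s (zz w (m - 1)) v) w) w :=
    fun w hw => (hzz w (hsm hw)).2.2.2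
  have hFan : DifferentiableOn ℂ F (Rc (3 * ρ') (3 * τ')) := fun w hw =>
    (hFder w hw).differentiableAt.differentiableWithinAt
  have hFev : ∀ w ∈ Rc (3 * ρ') (3 * τ'), F (-w) = F w := by
    intro w hw
    have hwR := hR23 (hsm hw)
    obtain ⟨q1, q2, -, -⟩ := hzz w (hsm hw)
    obtain ⟨-, -, hu, -⟩ := hzz (-w) (neg_mem_Rc (hsm hw))
    have hzeq := hu (zz w) q1 (chain_neg h1.hK.toPP hwR (hzR w hw) q2)
    have hends : ends m (-w) (-w) (zz (-w)) = ends m (-w) (-w) (zz w) := by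
      funext i
      unfold ends
      by_cases h0 : i = 0
      · simp [h0]
      · rw [if_neg h0, if_neg h0]
        by_cases h1 : i ≤ m
        · rw [if_pos h1, if_pos h1, hzeq (i - 1) (by omega)]
        · rw [if_neg h1, if_neg h1]
    show ChVal s m a (ends m (-w) (-w) (zz (-w))) = ChVal s m a (ends m w w (zz w))
    rw [hends, chval_neg h1.hK.toPP hm hwR (hzR w hw)]
  have hFcl : ∀ w ∈ Rc (3 * ρ') (3 * τ'),
      ‖F w - F 0 - (2 : ℕ) * (s 0 w - s 0 0)‖ ≤ (2 : ℕ) * ε₁ := by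
    have m0 : (0 : ℂ) ∈ Rc (3 * ρ) (3 * τ) := zero_mem_Rc (by linarith) (by linarith)
    have hd0 : ∀ w ∈ Rc (3 * ρ') (3 * τ'), HasDerivAt (fun v => s 0 v)
        (deriv (fun v => s v 0) w) w := by
      intro w hw
      have hwR := hR23 (hsm hw)
      have h1' : DifferentiableOn ℂ (fun v => s 0 v) (Rc (3 * ρ) (3 * τ)) := by
        have : DifferentiableOn ℂ (fun w : ℂ => ((0 : ℂ), w)) (Rc (3 * ρ) (3 * τ)) :=
          ((differentiable_const (0 : ℂ)).prodMk differentiable_id).differentiableOn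
        exact h1.hK.san.comp this (fun w hw => ⟨m0, hw⟩)
      have h2' := (h1'.differentiableAt
        ((Pool.Agent.W85.HT.open_Rc (3 * ρ) (3 * τ)).mem_nhds hwR)).hasDerivAt
      rwa [deriv_sym h1.hK.toPP m0 hwR] at h2'
    have hzη : ∀ w ∈ Rc (3 * ρ') (3 * τ'), ∀ j < m, ‖zz w j‖ < η := fun w hw j hj =>
      ((hid w hw).1 j hj).2.trans_lt h3.h5
    refine close_F (by linarith) (by linarith) (by linarith) h2.hε₁.le hFder hd0 ?_ ?_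
    · intro w hw
      exact h2.der _ (hzη w hw 0 (by omega)) w hw
    · intro w hw
      rw [deriv_sym h1.hK.toPP (hzR w hw (m - 1) (by omega)) (hR23 (hsm hw))]
      exact h2.der _ (hzη w hw (m - 1) (by omega)) w hw
  have hFpos : ∀ w ∈ Rc (3 * ρ') (3 * τ'), κ / 2 ≤ (F w).re := by
    intro w hw
    obtain ⟨-, Q, zs, hQ, hQF⟩ := hid w hw
    rw [← hQF]
    exact cc_pos h1.hK hQ (hR23 (hsm hw)) le_rfl w (hR23 (hsm hw))
  -- the last critical point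
  obtain ⟨w, hw1, hw2, hw3, hw4⟩ := h2.cpu F hFan hFev hFcl (a m) (h3.h3.trans (ha m (by omega)))
  have hwS : w ∈ Rc (3 * ρ') (3 * τ') := Rc_mono (by linarith) (by linarith) hw1.mem
  -- the near part
  set Y : ℕ → ℂ → ℂ := fun N v => itN r a N m (Wr k (m + 1) N) (Function.update 0 m v) with hY
  have hWs : ∀ N, 1 ≤ N → Sep (m + 1) (Wr k (m + 1) N) := by
    intro N _
    exact Wd_sep (by omega) (hS.sep N)
  have hK2R : Kc (2 * ρ') (2 * τ') ⊆ Rc (3 * ρ') (3 * τ') := Kc_sub_Rc (by linarith) (by linarith)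
  have hmw : MW Y F (Rc (2 * ρ') (2 * τ')) := by
    refine mw_of_seq (Kc_compact (2 * ρ') (2 * τ')) Rc_sub_Kc (c := κ / 2) (by linarith [hκ.1])
      (hFan.continuousOn.mono hK2R) (fun v hv => hFpos v (hK2R hv)) ?_
    intro v v₀ hv₀ hv hlim
    obtain ⟨-, Q, zs, hQ, hQF⟩ := hid v₀ (hK2R hv₀)
    have hv₀R := hsm (hK2R hv₀)
    have k1 := cc_lim h1.hK hQ (hR23 hv₀R) hWs hr (by
      intro ψ ψ₀ g1 g2 g3
      refine wr_lim h1.hK hS (by omega) ?_ (fun j hj => g3 j (by omega))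
      intro j hj
      rcases Nat.lt_or_ge j m with h | h
      · exact Kc_sub_Rc (by linarith) (by linarith) (g1 j h)
      · have : j = m := by omega
        rw [this, g2]
        exact Rc_mono (by linarith) (by linarith) hv₀R) le_rfl
      (fun N => Function.update 0 m (v N)) (Function.update 0 m v₀)
      (fun i hi1 hi2 => by omega) (by rw [Function.update_self]) (by
        intro i hi1 hi2
        have : i = m := by omega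
        subst this
        simp only [Function.update_self]
        exact hlim)
    have e1 : rest s m m (Function.update 0 m v₀) = 0 := by simp [rest]
    rw [e1, add_zero, Function.update_self, hQF] at k1
    exact k1
  have hw_im : w.im < τ' := by
    have := hw1.mem.2
    rwa [abs_of_pos hw1.im] at this
  have hbds := lap_strong f_LAPINT (a := a m) (z := w) (Y := Y) (G := F) hρ'.1 hτ'.1
    (by linarith)
    (by
      filter_upwards [eventually_ge_atTop 1] with N hN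
      exact ((itG_sep (fun i => LN_lin (r i) (a i) hN) (hWs N hN) (by omega)).diff
        0 m).differentiableOn)
    (hFan.mono (Rc_mono (by linarith) (by linarith))) hmw hw1.mem.1 hw1.im hw_im hw2
  obtain ⟨hid1, -⟩ := hid w hwS
  have hr₀ := h1.hr₀
  obtain ⟨hR1, hR2⟩ := rcrit_of_chain (ρ := ρ) (τ := τ) hm
    (fun j hj => ⟨(hid1 j hj).1.mem, (hid1 j hj).1.im, (hid1 j hj).1.sm.trans hr₀⟩)
    ⟨Rc_mono (by linarith) (by linarith) hw1.mem, hw1.im, hw1.sm⟩ (hzz w (hsm hwS)).2.1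
    (a := a) (by rw [(hFder w hwS).deriv] at hw3; exact hw3)
  refine ⟨_, (qq (a m) F w).re, hR1, by rw [hR2]; rfl, ?_, ?_⟩
  · intro Q zs hcc
    obtain ⟨-, k2⟩ := h1.hid h2 h3 ha hzz' h0' hcc
    have k3 := (Complex.abs_re_le_norm _).trans hw4
    rw [Complex.sub_re] at k3
    have k4 : Q m 0 = F 0 := k2
    rw [k4]
    have := h2.hκg
    linarith [(abs_le.1 k3).1]
  · intro ε hε
    filter_upwards [hbds ε hε] with N hN
    have e : itN r a N (m + 1) (Wr k (m + 1) N) 0 = LN (r m) (a m) N (Y N) := rfl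
    rw [e, hrm]
    exact hN

end

end Pool.Agent.Y481.X
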